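import Mathlib

/-!
The sesquilinear form of a matrix: definition and elementary rules.
-/

open scoped ComplexConjugate

namespace Pool.Agent.Ball

open Module Matrix

/-- the sesquilinear form of a matrix, conjugate linear in the first variable -/
noncomputable def hf {m : ℕ} (H : Matrix (Fin m) (Fin m) ℂ) (u v : Fin m → ℂ) : ℂ :=
  star u ⬝ᵥ (H *ᵥ v)

section lor

variable {m : ℕ}

lemma hf_add_right (H : Matrix (Fin m) (Fin m) ℂ) (u v w : Fin m → ℂ) :
    hf H u (v + w) = hf H u v + hf H u w := by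
  rw [hf, hf, hf, Matrix.mulVec_add, dotProduct_add]

lemma hf_smul_right (H : Matrix (Fin m) (Fin m) ℂ) (c : ℂ) (u v : Fin m → ℂ) :
    hf H u (c • v) = c * hf H u v := by
  rw [hf, hf, Matrix.mulVec_smul, dotProduct_smul, smul_eq_mul]

lemma hf_add_left (H : Matrix (Fin m) (Fin m) ℂ) (u v w : Fin m → ℂ) :
    hf H (u + v) w = hf H u w + hf H v w := by
  rw [hf, hf, hf, star_add, add_dotProduct]

lemma hf_smul_left (H : Matrix (Fin m) (Fin m) ℂ) (c : ℂ) (u v : Fin m → ℂ) :
    hf H (c • u) v = conj c * hf H u v := by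
  rw [hf, hf, star_smul, smul_dotProduct, smul_eq_mul]
  rfl

lemma hf_zero_right (H : Matrix (Fin m) (Fin m) ℂ) (u : Fin m → ℂ) : hf H u 0 = 0 := by
  rw [hf, Matrix.mulVec_zero, dotProduct_zero]

lemma hf_sum_left {ι : Type*} (H : Matrix (Fin m) (Fin m) ℂ) (s : Finset ι) (f : ι → Fin m → ℂ)
    (v : Fin m → ℂ) : hf H (∑ i ∈ s, f i) v = ∑ i ∈ s, hf H (f i) v := by
  classical
  induction s using Finset.induction_on with
  | empty => simp [hf]
  | insert a s ha ih => rw [Finset.sum_insert ha, Finset.sum_insert ha, hf_add_left, ih]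

lemma hf_sum_right {ι : Type*} (H : Matrix (Fin m) (Fin m) ℂ) (s : Finset ι) (f : ι → Fin m → ℂ)
    (v : Fin m → ℂ) : hf H v (∑ i ∈ s, f i) = ∑ i ∈ s, hf H v (f i) := by
  classical
  induction s using Finset.induction_on with
  | empty => simp [hf]
  | insert a s ha ih => rw [Finset.sum_insert ha, Finset.sum_insert ha, hf_add_right, ih]

end lor

end Pool.Agent.Ball
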