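import Pool.Agent.Helper84.Sign
import Pool.Agent.Helper7.U.UIrred
import Pool.Agent.Helper7.Wedge
import Pool.Agent.Helper8.B.HF

/-!
Abelian varieties of ball quotient type: common definitions.
-/

open scoped ComplexConjugate InnerProductSpace

namespace Pool.Agent.Ball

open Module Matrix NumberField

/-- a Hermitian form with a negative vector whose orthogonal complement is positive definite -/
def Lorentz {m : ℕ} (H : Matrix (Fin m) (Fin m) ℂ) : Prop :=
  H.IsHermitian ∧ ∃ e, (hf H e e).re < 0 ∧ ∀ v, hf H e v = 0 → v ≠ 0 → 0 < (hf H v v).re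

/-- a definite Hermitian form -/
def Definite {m : ℕ} (H : Matrix (Fin m) (Fin m) ℂ) : Prop :=
  H.IsHermitian ∧ ((∀ v, v ≠ 0 → 0 < (hf H v v).re) ∨ (∀ v, v ≠ 0 → (hf H v v).re < 0))

/-- the model of a Lorentzian space -/
abbrev LV (l : ℕ) : Type := ℂ × EuclideanSpace ℂ (Fin l) × ℂ

/-- the Hermitian form of the model -/
noncomputable def hm {l : ℕ} (x y : LV l) : ℂ :=
  conj x.1 * y.2.2 + conj x.2.2 * y.1 + ⟪x.2.1, y.2.1⟫_ℂ

/-- the operator of degree one given by two vectors -/
noncomputable def opY {l : ℕ} (v u : EuclideanSpace ℂ (Fin l)) : Module.End ℂ (LV l) where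
  toFun x := (⟪u, x.2.1⟫_ℂ, x.2.2 • v, 0)
  map_add' x y := by
    simp [add_smul]
  map_smul' c x := by
    simp [mul_smul]

/-- the operator of degree minus one given by two vectors -/
noncomputable def opZ {l : ℕ} (w k : EuclideanSpace ℂ (Fin l)) : Module.End ℂ (LV l) where
  toFun x := (0, x.1 • w, ⟪k, x.2.1⟫_ℂ)
  map_add' x y := by
    simp [add_smul]
  map_smul' c x := by
    simp [mul_smul]

/-- the grading operator -/
noncomputable def opH {l : ℕ} : Module.End ℂ (LV l) where
  toFun x := (x.1, 0, - x.2.2)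
  map_add' x y := by
    simp [add_comm]
  map_smul' c x := by
    simp

/-- infinitesimal rotations -/
def rot {m : ℕ} (i j : Fin m) : Matrix (Fin m) (Fin m) ℂ :=
  Matrix.single i j 1 - Matrix.single j i 1

section place

open Pool.Agent.Helper7

variable {κ : Type} [Fintype κ] [DecidableEq κ] {ϖ : ℂ} {P : PData κ ϖ} {K : Type} [Field K]
    [NumberField K] {m : ℕ}

/-- the Hermitian form at a place -/
noncomputable def HG (F : UF P K m) (σ : K →+* ℂ) : Matrix (Fin m) (Fin m) ℂ :=
  Matrix.of fun a b => P.ψ (F.e (ComplexEmbedding.conjugate σ) a) (F.e σ b)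

/-- the degree of the determinants -/
def detDeg (m : ℕ) : ℕ := if Even m then m else 2 * m

end place

section family

open Pool.Agent.Helper7

variable {I : Type} [Fintype I] [DecidableEq I] (n : I → ℕ)
  {κ : I → Type} [∀ i, Fintype (κ i)] [∀ i, DecidableEq (κ i)] {ϖ : ℂ}
  (P : ∀ i, PData (κ i) ϖ)
  {k : ℕ} (α : MultilinearMap ℂ (fun _ : Fin (2 * k) => HW κ n) ℂ)

/-- the real points of the group of symmetries -/
structure IsGrp (g : (i : I) → Module.End ℂ (κ i → ℂ)) : Prop where
  comm : ∀ i j (f : (κ i → ℂ) →ₗ[ℂ] (κ j → ℂ)), IsDRB (P i) (P j) f →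
    ∀ v, g j (f v) = f (g i v)
  pol : ∀ i u v, (P i).ψ (g i u) (g i v) = (P i).ψ u v
  form : ∀ v : Fin (2 * k) → HW κ n, α (fun r => lift n g (v r)) = α v
  real : ∀ i v, g i (cB (P i) v) = cB (P i) (g i v)

end family

end Pool.Agent.Ball
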