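import Pool.Agent.Helper8.B.Struct2

/-!
The structure of a Lie algebra of operators on a Lorentzian space which contains the grading
operator, is stable under the adjoint and acts irreducibly: the theorem.
-/

open scoped ComplexConjugate InnerProductSpace

namespace Pool.Agent.Ball

open Module

variable {l : ℕ}

section

variable (g c : Submodule ℂ (Module.End ℂ (LV l)))
    (hg : ∀ X ∈ g, ∀ Y ∈ g, X * Y - Y * X ∈ g) (hcg : c ≤ g)
    (hc : ∀ X ∈ g, ∀ Y ∈ c, X * Y - Y * X ∈ c) (hH : opH ∈ c)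
    (hadj : ∀ X ∈ g, ∃ X' ∈ g, ∀ u v, hm (X' u) v = hm u (X v))
    (hirr : ∀ U : Submodule ℂ (LV l), (∀ X ∈ g, ∀ v ∈ U, X v ∈ U) → U = ⊥ ∨ U = ⊤)

/-- the lines and planes given by a subspace of the Euclidean part -/
def sub3 (A : Submodule ℂ ℂ) (S : Submodule ℂ (EW l)) (B : Submodule ℂ ℂ) :
    Submodule ℂ (LV l) := A.prod (S.prod B)

lemma mem_sub3 (A : Submodule ℂ ℂ) (S : Submodule ℂ (EW l)) (B : Submodule ℂ ℂ) (x : LV l) :
    x ∈ sub3 A S B ↔ x.1 ∈ A ∧ x.2.1 ∈ S ∧ x.2.2 ∈ B := Iff.rfl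

lemma iP_eq (x : LV l) (h1 : x.2.1 = 0) (h2 : x.2.2 = 0) : x = iP x.1 := by
  rw [iP_apply]
  ext1
  · rfl
  · ext1
    · exact h1
    · exact h2

lemma iM_eq (x : LV l) (h1 : x.1 = 0) (h2 : x.2.1 = 0) : x = iM x.2.2 := by
  rw [iM_apply]
  ext1
  · exact h1
  · ext1
    · exact h2
    · rfl

lemma iP_smul (a : ℂ) : (iP a : LV l) = a • iP 1 := by rw [← map_smul, smul_eq_mul, mul_one]

lemma iM_smul (a : ℂ) : (iM a : LV l) = a • iM 1 := by rw [← map_smul, smul_eq_mul, mul_one]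

include hg hcg hH hadj hirr in
lemma RY_or_RZ (hl : 0 < l) : RY g ≠ ⊥ ∨ RZ g ≠ ⊥ := by
  by_contra hcon
  push Not at hcon
  obtain ⟨h1, h2⟩ := hcon
  have h3 : ∀ X ∈ g, (X (iM 1)).2.1 = 0 := fun X hX =>
    zero_of_RY g hadj h1 (opY_mem_of g c hg hcg hH hX)
  have h4 : ∀ X ∈ g, (X (iP 1)).2.1 = 0 := fun X hX =>
    zero_of_RZ g hadj h2 (opZ_mem_of g c hg hcg hH hX)
  rcases hirr (sub3 ⊤ ⊥ ⊤) (by
    intro X hX v hv
    rw [mem_sub3] at hv ⊢
    refine ⟨trivial, ?_, trivial⟩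
    obtain ⟨-, hv2, -⟩ := hv
    rw [Submodule.mem_bot] at hv2 ⊢
    have h5 : X v = v.1 • X (iP 1) + v.2.2 • X (iM 1) := by
      have h6 := val X v.1 v.2.1 v.2.2
      have h7 : (v.1, v.2.1, v.2.2) = v := rfl
      rw [h7, hv2, map_zero, map_zero, add_zero] at h6
      exact h6
    rw [h5, Prod.snd_add, Prod.fst_add, Prod.smul_snd, Prod.smul_fst, Prod.smul_snd,
      Prod.smul_fst, h3 X hX, h4 X hX, smul_zero, smul_zero, add_zero]) with h | h
  · have h5 : (iP 1 : LV l) ∈ sub3 ⊤ ⊥ ⊤ := by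
      rw [mem_sub3]
      exact ⟨trivial, rfl, trivial⟩
    rw [h, Submodule.mem_bot, iP_apply] at h5
    have := congrArg Prod.fst h5
    exact one_ne_zero this
  · have h5 : (iW (EuclideanSpace.single ⟨0, hl⟩ 1) : LV l) ∈ sub3 ⊤ ⊥ ⊤ := by
      rw [h]; trivial
    rw [mem_sub3] at h5
    have h6 : (EuclideanSpace.single (⟨0, hl⟩ : Fin l) (1 : ℂ)) = 0 := h5.2.1
    have h7 := congrArg (fun w : EW l => w ⟨0, hl⟩) h6
    simp at h7

include hg hcg hH hadj hirr in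
lemma RY_ne (hl : 0 < l) : RY g ≠ ⊥ := by
  intro h1
  have h2 : RZ g ≠ ⊥ := (RY_or_RZ g c hg hcg hH hadj hirr hl).resolve_left (fun h => h h1)
  obtain ⟨w, hw, hw0⟩ := Submodule.exists_mem_ne_zero_of_ne_bot h2
  have hE : opE ∉ g := by
    intro hE
    have h3 := br_mem g hg hE ((mem_RZ g w).mp hw)
    rw [br_EZ] at h3
    exact hw0 (neg_eq_zero.mp (zero_of_RY g hadj h1 h3))
  rcases hirr (sub3 ⊥ ⊥ ⊤) (by
    intro X hX v hv
    rw [mem_sub3] at hv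
    obtain ⟨hv1, hv2, -⟩ := hv
    rw [Submodule.mem_bot] at hv1 hv2
    have h4 : (X (iM 1)).2.1 = 0 := zero_of_RY g hadj h1 (opY_mem_of g c hg hcg hH hX)
    have h5 : (X (iM 1)).1 = 0 := by
      by_contra h6
      have h7 := g.smul_mem ((X (iM 1)).1)⁻¹ (opE_mem_of g c hg hcg hH hX)
      rw [smul_smul, inv_mul_cancel₀ h6, one_smul] at h7
      exact hE h7
    rw [iM_eq v hv1 hv2, iM_smul, map_smul]
    refine Submodule.smul_mem _ _ ?_
    rw [mem_sub3]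
    exact ⟨h5, h4, trivial⟩) with h | h
  · have h5 : (iM 1 : LV l) ∈ sub3 ⊥ ⊥ ⊤ := by
      rw [mem_sub3]
      exact ⟨rfl, rfl, trivial⟩
    rw [h, Submodule.mem_bot, iM_apply] at h5
    have := congrArg (fun x : LV l => x.2.2) h5
    exact one_ne_zero this
  · have h5 : (iP 1 : LV l) ∈ sub3 ⊥ ⊥ ⊤ := by
      rw [h]; trivial
    rw [mem_sub3] at h5
    have h6 : (1 : ℂ) = 0 := h5.1
    exact one_ne_zero h6

include hg hcg hH hadj hirr in
lemma RZ_ne (hl : 0 < l) : RZ g ≠ ⊥ := by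
  intro h1
  have h2 : RY g ≠ ⊥ := (RY_or_RZ g c hg hcg hH hadj hirr hl).resolve_right (fun h => h h1)
  obtain ⟨w, hw, hw0⟩ := Submodule.exists_mem_ne_zero_of_ne_bot h2
  have hF : opF ∉ g := by
    intro hF
    have h3 := br_mem g hg hF ((mem_RY g w).mp hw)
    rw [br_FY] at h3
    exact hw0 (neg_eq_zero.mp (zero_of_RZ g hadj h1 h3))
  rcases hirr (sub3 ⊤ ⊥ ⊥) (by
    intro X hX v hv
    rw [mem_sub3] at hv
    obtain ⟨-, hv1, hv2⟩ := hv
    rw [Submodule.mem_bot] at hv1 hv2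
    have h4 : (X (iP 1)).2.1 = 0 := zero_of_RZ g hadj h1 (opZ_mem_of g c hg hcg hH hX)
    have h5 : (X (iP 1)).2.2 = 0 := by
      by_contra h6
      have h7 := g.smul_mem ((X (iP 1)).2.2)⁻¹ (opF_mem_of g c hg hcg hH hX)
      rw [smul_smul, inv_mul_cancel₀ h6, one_smul] at h7
      exact hF h7
    rw [iP_eq v hv1 hv2, iP_smul, map_smul]
    refine Submodule.smul_mem _ _ ?_
    rw [mem_sub3]
    exact ⟨trivial, h4, h5⟩) with h | h
  · have h5 : (iP 1 : LV l) ∈ sub3 ⊤ ⊥ ⊥ := by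
      rw [mem_sub3]
      exact ⟨trivial, rfl, rfl⟩
    rw [h, Submodule.mem_bot, iP_apply] at h5
    have := congrArg Prod.fst h5
    exact one_ne_zero this
  · have h5 : (iM 1 : LV l) ∈ sub3 ⊤ ⊥ ⊥ := by
      rw [h]; trivial
    rw [mem_sub3] at h5
    have h6 : (1 : ℂ) = 0 := h5.2.2
    exact one_ne_zero h6

include hg in
/-- the basic identity -/
lemma key_Y {s w : EW l} (hs : opY s s ∈ g) (hw : opZ w w ∈ g) :
    (2 * ⟪w, s⟫_ℂ) • s - ⟪s, s⟫_ℂ • w ∈ RY g := by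
  have h1 := br_mem g hg (br_mem g hg hs hw) hs
  rw [br_YZY] at h1
  have h2 : ⟪w, s⟫_ℂ • s - ⟪s, s⟫_ℂ • w + ⟪w, s⟫_ℂ • s =
      (2 * ⟪w, s⟫_ℂ) • s - ⟪s, s⟫_ℂ • w := by module
  rw [h2] at h1
  exact h1

include hg in
lemma key_Z {s w : EW l} (hs : opY s s ∈ g) (hw : opZ w w ∈ g) :
    (2 * ⟪s, w⟫_ℂ) • w - ⟪w, w⟫_ℂ • s ∈ RZ g := by
  have h1 := br_mem g hg (br_mem g hg hw hs) hw
  rw [br_ZYZ] at h1
  have h2 : ⟪s, w⟫_ℂ • w - ⟪w, w⟫_ℂ • s + ⟪s, w⟫_ℂ • w =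
      (2 * ⟪s, w⟫_ℂ) • w - ⟪w, w⟫_ℂ • s := by module
  rw [h2] at h1
  exact h1

include hg hcg hH hadj hirr in
lemma span_RY (hl : 0 < l) : cs (RY g) = ⊤ := by
  obtain ⟨s, hs, hs0⟩ := Submodule.exists_mem_ne_zero_of_ne_bot
    (RY_ne g c hg hcg hH hadj hirr hl)
  have hss : ⟪s, s⟫_ℂ ≠ 0 := inner_self_ne_zero.mpr hs0
  have hRZ : ∀ w ∈ RZ g, w ∈ cs (RY g) := by
    intro w hw
    have h1 := key_Y g hg ((mem_RY g s).mp hs) ((mem_RZ g w).mp hw)
    have h2 : w = (⟪s, s⟫_ℂ)⁻¹ • ((2 * ⟪w, s⟫_ℂ) • s -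
        ((2 * ⟪w, s⟫_ℂ) • s - ⟪s, s⟫_ℂ • w)) := by
      rw [sub_sub_cancel, smul_smul, inv_mul_cancel₀ hss, one_smul]
    rw [h2]
    exact Submodule.smul_mem _ _ (Submodule.sub_mem _ (Submodule.smul_mem _ _
      (Submodule.subset_span hs)) (Submodule.subset_span h1))
  have hRZ' : cs (RZ g) ≤ cs (RY g) := Submodule.span_le.mpr hRZ
  have hM : ∀ X ∈ g, (X (iM 1)).2.1 ∈ cs (RY g) := fun X hX =>
    cs_of g hadj (opY_mem_of g c hg hcg hH hX)
  have hP : ∀ X ∈ g, (X (iP 1)).2.1 ∈ cs (RY g) := fun X hX =>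
    hRZ' (cs_of' g hadj (opZ_mem_of g c hg hcg hH hX))
  have hW : ∀ X ∈ g, ∀ x ∈ cs (RY g), (X (iW x)).2.1 ∈ cs (RY g) := by
    intro X hX x hx
    have h0 : cs (RY g) ≤ (cs (RY g)).comap (pW ∘ₗ X ∘ₗ iW) := by
      refine Submodule.span_le.mpr ?_
      intro y hy
      show (X (iW y)).2.1 ∈ cs (RY g)
      have h1 := hM _ (br_mem g hg hX ((mem_RY g y).mp hy))
      have h2 : (br X (opY y y) (iM 1)).2.1 = (X (iW y)).2.1 - (X (iM 1)).2.2 • y := by
        rw [br_apply]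
        have h3 : opY y y (iM 1) = iW y := by
          rw [opY_apply, iM_apply, iW_apply]
          ext1
          · simp
          · ext1
            · simp
            · simp
        rw [h3, opY_apply]
        rfl
      rw [h2] at h1
      have h3 := Submodule.add_mem _ h1 (Submodule.smul_mem _ ((X (iM 1)).2.2)
        (Submodule.subset_span hy : y ∈ cs (RY g)))
      rw [sub_add_cancel] at h3
      exact h3
    exact h0 hx
  rcases hirr (sub3 ⊤ (cs (RY g)) ⊤) (by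
    intro X hX v hv
    rw [mem_sub3] at hv ⊢
    refine ⟨trivial, ?_, trivial⟩
    have h6 := val X v.1 v.2.1 v.2.2
    have h7 : (v.1, v.2.1, v.2.2) = v := rfl
    rw [h7] at h6
    rw [h6]
    exact Submodule.add_mem _ (Submodule.add_mem _ (Submodule.smul_mem _ _ (hP X hX))
      (hW X hX _ hv.2.1)) (Submodule.smul_mem _ _ (hM X hX))) with h | h
  · exfalso
    have h5 : (iP 1 : LV l) ∈ sub3 ⊤ (cs (RY g)) ⊤ := by
      rw [mem_sub3]
      exact ⟨trivial, Submodule.zero_mem _, trivial⟩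
    rw [h, Submodule.mem_bot, iP_apply] at h5
    have := congrArg Prod.fst h5
    exact one_ne_zero this
  · rw [eq_top_iff]
    intro x _
    have h5 : (iW x : LV l) ∈ sub3 ⊤ (cs (RY g)) ⊤ := by rw [h]; trivial
    exact ((mem_sub3 _ _ _ _).mp h5).2.1

include hg hadj in
/-- the first case: everything -/
lemma case_E (hE : opE ∈ g) (hRZ : RZ g ≠ ⊥) (hsp : cs (RY g) = ⊤) (x : EW l) :
    opY x x ∈ g ∧ opZ x x ∈ g := by
  obtain ⟨w, hw, hw0⟩ := Submodule.exists_mem_ne_zero_of_ne_bot hRZ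
  have hww : ⟪w, w⟫_ℂ ≠ 0 := inner_self_ne_zero.mpr hw0
  rw [mem_RZ] at hw
  -- `opF ∈ g`
  have h1 : opY (-w) w ∈ g := by
    have := br_mem g hg hE hw
    rw [br_EZ] at this
    exact this
  have h2 : opZ w (-w) ∈ g := by
    have h3 := br_mem g hg (br_mem g hg hw h1) hw
    rw [br_ZYZ] at h3
    have e1 : ⟪w, w⟫_ℂ • w - ⟪w, w⟫_ℂ • -w + ⟪w, w⟫_ℂ • w = (3 * ⟪w, w⟫_ℂ) • w := by module
    have e2 : ⟪-w, w⟫_ℂ • w - ⟪w, w⟫_ℂ • w + ⟪-w, w⟫_ℂ • w =
        conj (3 * ⟪w, w⟫_ℂ) • (-w) := by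
      rw [inner_neg_left, map_mul, inner_conj_symm, map_ofNat]
      module
    rw [e1, e2, opZ_smul] at h3
    have h4 := g.smul_mem (3 * ⟪w, w⟫_ℂ)⁻¹ h3
    rw [smul_smul, inv_mul_cancel₀ (mul_ne_zero three_ne_zero hww), one_smul] at h4
    exact h4
  have h3 : opZ w 0 ∈ g := by
    have h4 := g.smul_mem (1 / 2 : ℂ) (g.add_mem hw h2)
    rw [← opZ_add, add_neg_cancel, ← opZ_smul, smul_zero, ← two_smul ℂ w, smul_smul] at h4
    norm_num at h4
    exact h4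
  have h4 : opZ 0 w ∈ g := by
    have h5 := g.sub_mem hw h3
    have e : opZ w w - opZ w 0 = (opZ 0 w : Module.End ℂ (LV l)) := by
      rw [sub_eq_iff_eq_add, ← opZ_add, zero_add, add_zero]
    rw [e] at h5
    exact h5
  have hF : opF ∈ g := by
    have h5 := br_mem g hg h4 h3
    rw [br_ZZ, inner_zero_left, sub_zero] at h5
    have h6 := g.smul_mem (⟪w, w⟫_ℂ)⁻¹ h5
    rw [smul_smul, inv_mul_cancel₀ hww, one_smul] at h6
    exact h6
  -- `opY s 0 ∈ g`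
  have h5 : ∀ s ∈ RY g, opY s 0 ∈ g ∧ opY 0 s ∈ g := by
    intro s hs
    by_cases hs0 : s = 0
    · rw [hs0]
      exact ⟨(RY g).zero_mem, (RY g).zero_mem⟩
    have hss : ⟪s, s⟫_ℂ ≠ 0 := inner_self_ne_zero.mpr hs0
    rw [mem_RY] at hs
    have h6 : opZ (-s) s ∈ g := by
      have := br_mem g hg hF hs
      rw [br_FY] at this
      exact this
    have h7 : opY s (-s) ∈ g := by
      have h8 := br_mem g hg (br_mem g hg hs h6) hs
      rw [br_YZY] at h8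
      have e1 : ⟪s, s⟫_ℂ • s - ⟪s, s⟫_ℂ • -s + ⟪s, s⟫_ℂ • s = (3 * ⟪s, s⟫_ℂ) • s := by module
      have e2 : ⟪-s, s⟫_ℂ • s - ⟪s, s⟫_ℂ • s + ⟪-s, s⟫_ℂ • s =
          conj (3 * ⟪s, s⟫_ℂ) • (-s) := by
        rw [inner_neg_left, map_mul, inner_conj_symm, map_ofNat]
        module
      rw [e1, e2, opY_smul] at h8
      have h9 := g.smul_mem (3 * ⟪s, s⟫_ℂ)⁻¹ h8
      rw [smul_smul, inv_mul_cancel₀ (mul_ne_zero three_ne_zero hss), one_smul] at h9
      exact h9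
    have h8 : opY s 0 ∈ g := by
      have h9 := g.smul_mem (1 / 2 : ℂ) (g.add_mem hs h7)
      rw [← opY_add, add_neg_cancel, ← opY_smul, smul_zero, ← two_smul ℂ s, smul_smul] at h9
      norm_num at h9
      exact h9
    exact ⟨h8, opY_swap g hadj h8⟩
  have h6 : ∀ v : EW l, opY v 0 ∈ g := by
    intro v
    have hv : v ∈ cs (RY g) := by rw [hsp]; trivial
    unfold cs at hv
    induction hv using Submodule.span_induction with
    | mem x hx => exact (h5 x hx).1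
    | zero => exact (RY g).zero_mem
    | add x y _ _ hx hy =>
      have h7 := g.add_mem hx hy
      rw [← opY_add, add_zero] at h7
      exact h7
    | smul a x _ hx =>
      have h7 := g.smul_mem a hx
      rw [← opY_smul, smul_zero] at h7
      exact h7
  have h7 : ∀ v : EW l, opY 0 v ∈ g := fun v => opY_swap g hadj (h6 v)
  have h8 : ∀ v u : EW l, opY v u ∈ g := by
    intro v u
    have h9 := g.add_mem (h6 v) (h7 u)
    rw [← opY_add, add_zero, zero_add] at h9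
    exact h9
  refine ⟨h8 x x, ?_⟩
  have h9 := br_mem g hg hF (h8 (-x) x)
  rw [br_FY, neg_neg] at h9
  exact h9

include hg in
/-- the second case: the inner product is real on the real form -/
lemma case_notE (hE : opE ∉ g) {s t : EW l} (hs : s ∈ RY g) (ht : t ∈ RY g) :
    ⟪s, t⟫_ℂ = ⟪t, s⟫_ℂ := by
  by_contra hne
  apply hE
  have h1 := br_mem g hg ((mem_RY g s).mp hs) ((mem_RY g t).mp ht)
  rw [br_YY] at h1
  have h2 := g.smul_mem (⟪s, t⟫_ℂ - ⟪t, s⟫_ℂ)⁻¹ h1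
  rw [smul_smul, inv_mul_cancel₀ (sub_ne_zero.mpr hne), one_smul] at h2
  exact h2

lemma real_of_symm {s t : EW l} (h : ⟪s, t⟫_ℂ = ⟪t, s⟫_ℂ) :
    ⟪s, t⟫_ℂ = ((⟪s, t⟫_ℂ).re : ℂ) := by
  have h1 : conj ⟪s, t⟫_ℂ = ⟪s, t⟫_ℂ := by rw [inner_conj_symm, h]
  exact (Complex.conj_eq_iff_re.mp h1).symm

lemma self_real (s : EW l) : ⟪s, s⟫_ℂ = ((⟪s, s⟫_ℂ).re : ℂ) := real_of_symm rfl

include hg in
lemma RZ_of_RY (hE : opE ∉ g) (hRY : RY g ≠ ⊥) (hRZ : RZ g ≠ ⊥) {s : EW l} (hs : s ∈ RY g) :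
    s ∈ RZ g := by
  -- `RZ ≤ RY`
  have h0 : ∀ w ∈ RZ g, w ∈ RY g := by
    intro w hw
    obtain ⟨t, ht, ht0⟩ := Submodule.exists_mem_ne_zero_of_ne_bot hRY
    have htt : (⟪t, t⟫_ℂ).re ≠ 0 := by
      intro h
      have h1 := self_real t
      rw [h, Complex.ofReal_zero] at h1
      exact inner_self_ne_zero.mpr ht0 h1
    have h1 := key_Y g hg ((mem_RY g t).mp ht) ((mem_RZ g w).mp hw)
    have h2 := case_notE g hg hE ht h1
    rw [inner_sub_right, inner_sub_left, inner_smul_right, inner_smul_right, inner_smul_left,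
      inner_smul_left, map_mul, inner_conj_symm, inner_conj_symm, map_ofNat] at h2
    have h3 : ⟪t, t⟫_ℂ ≠ 0 := inner_self_ne_zero.mpr ht0
    have h4 : ⟪w, t⟫_ℂ = ⟪t, w⟫_ℂ := by
      have h5 : ⟪t, t⟫_ℂ * (3 * (⟪w, t⟫_ℂ - ⟪t, w⟫_ℂ)) = 0 := by linear_combination h2
      rcases mul_eq_zero.mp h5 with h6 | h6
      · exact absurd h6 h3
      · have h7 := (mul_eq_zero.mp h6).resolve_left three_ne_zero
        exact sub_eq_zero.mp h7
    have h5 := real_of_symm h4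
    have h6 : (2 * (⟪w, t⟫_ℂ).re) • t ∈ RY g := (RY g).smul_mem _ ht
    have h7 : (⟪t, t⟫_ℂ).re • w ∈ RY g := by
      have h8 := (RY g).sub_mem h6 h1
      have h9 : (2 * (⟪w, t⟫_ℂ).re) • t - ((2 * ⟪w, t⟫_ℂ) • t - ⟪t, t⟫_ℂ • w) =
          (⟪t, t⟫_ℂ).re • w := by
        have e1 : (2 * (⟪w, t⟫_ℂ).re) • t = (2 * ⟪w, t⟫_ℂ) • t := by
          rw [h5, Complex.ofReal_re, ← Complex.coe_smul, Complex.ofReal_mul, Complex.ofReal_ofNat]
        have e2 : (⟪t, t⟫_ℂ).re • w = ⟪t, t⟫_ℂ • w := by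
          rw [← Complex.coe_smul, ← self_real]
        rw [e1, e2, sub_sub_cancel]
      rw [h9] at h8
      exact h8
    have h8 := (RY g).smul_mem ((⟪t, t⟫_ℂ).re)⁻¹ h7
    rw [smul_smul, inv_mul_cancel₀ htt, one_smul] at h8
    exact h8
  obtain ⟨w, hw, hw0⟩ := Submodule.exists_mem_ne_zero_of_ne_bot hRZ
  have hww : (⟪w, w⟫_ℂ).re ≠ 0 := by
    intro h
    have h1 := self_real w
    rw [h, Complex.ofReal_zero] at h1
    exact inner_self_ne_zero.mpr hw0 h1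
  have h1 := key_Z g hg ((mem_RY g s).mp hs) ((mem_RZ g w).mp hw)
  have h5 := real_of_symm (case_notE g hg hE hs (h0 w hw))
  have h6 : (2 * (⟪s, w⟫_ℂ).re) • w ∈ RZ g := (RZ g).smul_mem _ hw
  have h7 : (⟪w, w⟫_ℂ).re • s ∈ RZ g := by
    have h8 := (RZ g).sub_mem h6 h1
    have h9 : (2 * (⟪s, w⟫_ℂ).re) • w - ((2 * ⟪s, w⟫_ℂ) • w - ⟪w, w⟫_ℂ • s) =
        (⟪w, w⟫_ℂ).re • s := by
      have e1 : (2 * (⟪s, w⟫_ℂ).re) • w = (2 * ⟪s, w⟫_ℂ) • w := by
        rw [h5, Complex.ofReal_re, ← Complex.coe_smul, Complex.ofReal_mul, Complex.ofReal_ofNat]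
      have e2 : (⟪w, w⟫_ℂ).re • s = ⟪w, w⟫_ℂ • s := by
        rw [← Complex.coe_smul, ← self_real]
      rw [e1, e2, sub_sub_cancel]
    rw [h9] at h8
    exact h8
  have h8 := (RZ g).smul_mem ((⟪w, w⟫_ℂ).re)⁻¹ h7
  rw [smul_smul, inv_mul_cancel₀ hww, one_smul] at h8
  exact h8

lemma re_inner_EW (x y : EW l) : (⟪x, y⟫_ℂ).re = ⟪x, y⟫_ℝ := by
  rw [PiLp.inner_apply, PiLp.inner_apply, Complex.re_sum]
  rfl

/-- an orthonormal basis of a real form on which the inner product is real -/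
lemma exists_basis (R : Submodule ℝ (EW l)) (hR : ∀ s ∈ R, ∀ t ∈ R, ⟪s, t⟫_ℂ = ⟪t, s⟫_ℂ)
    (hsp : cs R = ⊤) : ∃ r : OrthonormalBasis (Fin l) ℂ (EW l), ∀ i, r i ∈ R := by
  classical
  obtain ⟨b, hb⟩ : ∃ b : OrthonormalBasis (Fin (finrank ℝ R)) ℝ R, b = stdOrthonormalBasis ℝ R :=
    ⟨_, rfl⟩
  have h1 : Orthonormal ℂ (fun i => (b i : EW l)) := by
    rw [orthonormal_iff_ite]
    intro i j
    have h2 := real_of_symm (hR _ (b i).2 _ (b j).2)
    rw [h2]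
    have h3 : (⟪((b i : R) : EW l), ((b j : R) : EW l)⟫_ℂ).re = ⟪b i, b j⟫_ℝ := by
      rw [Submodule.coe_inner]
      exact re_inner_EW _ _
    rw [h3, orthonormal_iff_ite.mp b.orthonormal i j]
    split_ifs <;> simp
  have h2 : (⊤ : Submodule ℂ (EW l)) ≤ Submodule.span ℂ (Set.range (fun i => (b i : EW l))) := by
    rw [← hsp, cs]
    refine Submodule.span_le.mpr ?_
    intro x hx
    have h3 : x = ∑ i, b.repr ⟨x, hx⟩ i • (b i : EW l) := by
      have h4 := congrArg (Subtype.val) (b.sum_repr ⟨x, hx⟩)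
      have h5 : ((⟨x, hx⟩ : R) : EW l) = x := rfl
      rw [h5, Submodule.coe_sum] at h4
      exact h4.symm
    rw [h3]
    refine Submodule.sum_mem _ fun i _ => ?_
    rw [← Complex.coe_smul]
    exact Submodule.smul_mem _ _ (Submodule.subset_span ⟨i, rfl⟩)
  have h3 : finrank ℝ R = l := by
    have h4 := finrank_eq_card_basis (OrthonormalBasis.mk h1 h2).toBasis
    rw [finrank_euclideanSpace_fin, Fintype.card_fin] at h4
    exact h4.symm
  refine ⟨(OrthonormalBasis.mk h1 h2).reindex (finCongr h3), fun i => ?_⟩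
  rw [OrthonormalBasis.reindex_apply, OrthonormalBasis.coe_mk]
  exact (b _).2

include hg hcg hc hH hadj hirr in
/-- the structure theorem -/
theorem structure_thm (hl : 0 < l) : ∃ r : OrthonormalBasis (Fin l) ℂ (EuclideanSpace ℂ (Fin l)),
      ∀ i, opY (r i) (r i) ∈ c ∧ opZ (r i) (r i) ∈ c := by
  have hRY := RY_ne g c hg hcg hH hadj hirr hl
  have hRZ := RZ_ne g c hg hcg hH hadj hirr hl
  have hsp := span_RY g c hg hcg hH hadj hirr hl
  have toc : ∀ s : EW l, opY s s ∈ g → opZ s s ∈ g → opY s s ∈ c ∧ opZ s s ∈ c := by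
    intro s h1 h2
    constructor
    · have h3 := hc _ h1 _ hH
      have h4 : opY s s * opH - opH * opY s s = - opY s s := by
        have h5 := br_HY s s
        rw [br] at h5
        rw [← neg_sub, h5]
      rw [h4] at h3
      have h5 := c.neg_mem h3
      rw [neg_neg] at h5
      exact h5
    · have h3 := hc _ h2 _ hH
      have h4 : opZ s s * opH - opH * opZ s s = opZ s s := by
        have h5 := br_HZ s s
        rw [br] at h5
        rw [← neg_sub, h5, neg_neg]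
      rw [h4] at h3
      exact h3
  by_cases hE : opE ∈ g
  · refine ⟨EuclideanSpace.basisFun (Fin l) ℂ, fun i => ?_⟩
    obtain ⟨h1, h2⟩ := case_E g hg hadj hE hRZ hsp (EuclideanSpace.basisFun (Fin l) ℂ i)
    exact toc _ h1 h2
  · obtain ⟨r, hr⟩ := exists_basis (RY g) (fun s hs t ht => case_notE g hg hE hs ht) hsp
    refine ⟨r, fun i => ?_⟩
    exact toc _ ((mem_RY g _).mp (hr i)) ((mem_RZ g _).mp (RZ_of_RY g hg hE hRY hRZ (hr i)))

end

end Pool.Agent.Ball
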