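import Pool.Agent.Helper8.B.AllRot
import Pool.Agent.Helper20.Ball.M9a

/-!
The abstract theorem on abelian varieties of ball quotient type.
-/

open scoped ComplexConjugate

namespace Pool.Agent.Ball

open Module Matrix NumberField Pool.Agent.Helper7

theorem abstract_ball {κ : Type} [Fintype κ] [DecidableEq κ]
    (P : PData κ (2 * Real.pi * Complex.I)) {K : Type} [Field K] [NumberField K] {m : ℕ}
    (F : UF P K m) (hm : 3 ≤ m) (σ₀ : K →+* ℂ)
    (hc : NumberField.ComplexEmbedding.conjugate σ₀ ≠ σ₀) (hL : Lorentz (HG F σ₀))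
    (hD : ∀ τ, τ ≠ σ₀ → τ ≠ NumberField.ComplexEmbedding.conjugate σ₀ → Definite (HG F τ))
    {k : ℕ} (α : (HW (fun _ : Unit => κ) (fun _ => 1)) [⋀^Fin (2 * k)]→ₗ[ℂ] ℂ)
    (hB : ∀ v : Fin (2 * k) → HW (fun _ : Unit => κ) (fun _ => 1),
      (∀ r, IsRatP (fun _ => 1) (fun _ : Unit => P) (v r)) →
      ∃ q : ℚ, α v = (2 * Real.pi * Complex.I) ^ k * q)
    (hA : ∀ v : Fin (2 * k) → HW (fun _ : Unit => κ) (fun _ => 1),
      (∀ r i m j, IsAlgebraic ℚ (v r i m j)) → IsAlgebraic ℚ (α v))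
    (hk : 2 * k < detDeg m ∨ Fintype.card κ < 2 * k + detDeg m) :
    α ∈ Submodule.span ℚ {ω | ∃ γ : Fin k → (HW (fun _ : Unit => κ) (fun _ => 1) →ₗ[ℂ]
        HW (fun _ : Unit => κ) (fun _ => 1) →ₗ[ℂ] ℂ),
      (∀ a, γ a ∈ GW (fun _ => 1) (fun _ : Unit => P)) ∧ ω = wedge γ} :=
  M9a P F α Complex.two_pi_I_ne_zero (fun σ => all_complex P F σ₀ hc σ) hB hA
    (all_rot P F α hm σ₀ hL hD hB hA) hk

end Pool.Agent.Ball
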