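import Pool.Agent.Helper8.B.Conc
import Pool.Agent.Helper8.B.Final

/-!
The abstract theorem on abelian varieties of ball quotient type: a Lorentzian place which is
separated from the other places.
-/

open scoped ComplexConjugate

namespace Pool.Agent.Ball

open Module Matrix NumberField Pool.Agent.Helper7
open Pool.Agent.Helper8.D (ent ent_apply ent_act ent_mul)
open Pool.Agent.Helper28.GPC (tw isInv_tw entry_tw tw_star tw_snd)

set_option linter.unusedSectionVars false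

section family

variable {I : Type} [Fintype I] [DecidableEq I] (n : I → ℕ)
  {κ : I → Type} [∀ i, Fintype (κ i)] [∀ i, DecidableEq (κ i)] {ϖ : ℂ}
  (P : ∀ i, PData (κ i) ϖ)
  {k : ℕ} (α : MultilinearMap ℂ (fun _ : Fin (2 * k) => HW κ n) ℂ)
  (i : I) {K : Type} [Field K] [NumberField K] {m : ℕ} (F : UF (P i) K m)
  (hϖ : ϖ ≠ 0)
  (hB : ∀ v : Fin (2 * k) → HW κ n, (∀ r, IsRatP n P (v r)) → ∃ q : ℚ, α v = ϖ ^ k * q)
  (hA : ∀ v : Fin (2 * k) → HW κ n, (∀ r i m j, IsAlgebraic ℚ (v r i m j)) →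
      IsAlgebraic ℚ (α v))

/-- an indefinite and a definite place in the same position -/
def Sep (σ₀ τ : K →+* ℂ) : Prop :=
  ∃ g : ℂ ≃+* ℂ, (HG F ((g : ℂ →+* ℂ).comp σ₀)).IsHermitian ∧
    (∃ v, 0 < (hf (HG F ((g : ℂ →+* ℂ).comp σ₀)) v v).re) ∧
    (∃ v, (hf (HG F ((g : ℂ →+* ℂ).comp σ₀)) v v).re < 0) ∧
    Definite (HG F ((g : ℂ →+* ℂ).comp τ))

include hϖ hB hA in
lemma exists_sep (σ₀ τ : K →+* ℂ) (h : Sep P i F σ₀ τ) :
    ∃ X ∈ kAt n P α i F (vanAt P i F τ) σ₀, ∀ a : ℂ, X ≠ a • 1 := by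
  obtain ⟨g, hH, hpos, hneg, hD⟩ := h
  obtain ⟨Y, hY, hY2, hY0, -, hYD⟩ := exists_hyper_at n P α i F ((g : ℂ →+* ℂ).comp σ₀)
    (fun W hW hst => Helper98.Ball.M2 n P α i F hϖ hB hA _ W hW hst) hH hpos hneg
  obtain ⟨hY1, hY3⟩ := hYD _ hD
  have hent : ∀ σ : K →+* ℂ, ent F ((g.symm : ℂ →+* ℂ).comp σ) ((tw P g.symm Y).1 i) =
      (ent F σ (Y.1 i)).map g.symm := by
    intro σ
    ext a b
    exact entry_tw (K := fun _ => K) n P α hϖ hB g.symm Y hY i F σ a b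
  have hback : ∀ σ : K →+* ℂ, (g.symm : ℂ →+* ℂ).comp ((g : ℂ →+* ℂ).comp σ) = σ := by
    intro σ
    ext x
    exact g.symm_apply_apply (σ x)
  have h1 := hent ((g : ℂ →+* ℂ).comp σ₀)
  have h2 := hent ((g : ℂ →+* ℂ).comp τ)
  have h3 := hent (ComplexEmbedding.conjugate ((g : ℂ →+* ℂ).comp τ))
  rw [hback] at h1 h2
  rw [hY1, Matrix.map_zero _ (map_zero _)] at h2
  rw [comp_conj P i g.symm _ F, hback, hY3, Matrix.map_zero _ (map_zero _)] at h3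
  refine ⟨_, ⟨tw P g.symm Y, isInv_tw n P α hϖ hB _ Y hY, ?_, ⟨h2, h3⟩, h1⟩, fun a ha => ?_⟩
  · rw [tw_snd, hY2, map_zero]
  · apply hY0 (g a)
    have h4 := congrArg (fun M : Matrix (Fin m) (Fin m) ℂ => M.map g) ha
    simp only [Matrix.map_map] at h4
    have h5 : (ent F ((g : ℂ →+* ℂ).comp σ₀) (Y.1 i)).map (g ∘ g.symm) =
        ent F ((g : ℂ →+* ℂ).comp σ₀) (Y.1 i) := by
      ext a b
      exact g.apply_symm_apply _
    rw [h5] at h4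
    rw [h4]
    ext p q
    rw [Matrix.map_apply, Matrix.smul_apply, Matrix.smul_apply, smul_eq_mul, smul_eq_mul, map_mul,
      Matrix.one_apply]
    split_ifs <;> simp

include hϖ hB hA in
/-- concentration at a Lorentzian place -/
theorem concentrated (hm : 3 ≤ m) (σ₀ : K →+* ℂ) (hL : Lorentz (HG F σ₀))
    (hsep : ∀ τ, τ ≠ σ₀ → τ ≠ ComplexEmbedding.conjugate σ₀ → Sep P i F σ₀ τ) :
    ∃ B : Matrix (Fin m) (Fin m) ℂ, B ∈ cAt n P α i F σ₀ ∧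
      (∀ u v, hf (HG F σ₀) (B *ᵥ u) v + hf (HG F σ₀) u (B *ᵥ v) = 0) ∧
      (∀ v : Fin m → ℂ, v ∈ Submodule.span ℂ {w | ∃ r : ℝ, B *ᵥ w = (r : ℂ) • w}) ∧ B ≠ 0 := by
  classical
  obtain ⟨Y, hY, hY2, hY0, hYs, -⟩ := exists_hyper_at n P α i F σ₀
    (fun W hW hst => Helper98.Ball.M2 n P α i F hϖ hB hA _ W hW hst) hL.1
    (hL.exists_pos (by omega)) (hL.2.imp fun _ h => h.1)
  obtain ⟨hsk, hdg⟩ := hYs σ₀
  have hne : ent F σ₀ (Y.1 i) ≠ 0 := by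
    intro h
    apply hY0 0
    rw [h, zero_smul]
  obtain ⟨hZ, hI⟩ := mat_ideal hm (HG F σ₀) hL hL.nondeg (gAt n P α i F σ₀)
    (gAt_br n P α i F σ₀) (gAt_adj n P α i F hϖ hB σ₀) (gAt_irr n P α i F hϖ hB hA σ₀)
    (ent F σ₀ (Y.1 i)) ⟨Y, hY, hY2, rfl⟩ hsk hdg hne
  have key : ∀ S : Finset (K →+* ℂ), (∀ τ ∈ S, τ ≠ σ₀ ∧ τ ≠ ComplexEmbedding.conjugate σ₀) →
      IsIdl n P α (S.inf fun τ => vanAt P i F τ) ∧
      ent F σ₀ (Y.1 i) ∈ kAt n P α i F (S.inf fun τ => vanAt P i F τ) σ₀ := by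
    intro S
    induction S using Finset.induction_on with
    | empty =>
      intro _
      rw [Finset.inf_empty]
      exact ⟨IsIdl.top n P α, kAt_top n P α i F σ₀ ⟨Y, hY, hY2, rfl⟩⟩
    | insert τ S _ ih =>
      intro h
      obtain ⟨h1, h2⟩ := ih fun τ hτ => h τ (Finset.mem_insert_of_mem hτ)
      obtain ⟨h3, h4⟩ := h τ (Finset.mem_insert_self _ _)
      rw [Finset.inf_insert]
      have h5 := isIdl_vanAt n P α i F hϖ hB τ
      refine ⟨h5.inf h1, ?_⟩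
      refine conc_inf n P α i F σ₀ _ hZ hI h5 h1 ?_ h2 (kAt_adj n P α i F hϖ hB (h5.inf h1) σ₀)
      exact hI _ (kAt_le n P α i F _ σ₀) (kAt_br n P α i F h5 σ₀)
        (kAt_adj n P α i F hϖ hB h5 σ₀)
        (exists_sep n P α i F hϖ hB hA σ₀ τ (hsep τ h3 h4))
  obtain ⟨-, X, hX, hX2, hXJ, hXe⟩ := key (Finset.univ.filter fun τ => τ ≠ σ₀ ∧
    τ ≠ ComplexEmbedding.conjugate σ₀) (fun τ hτ => (Finset.mem_filter.mp hτ).2)
  refine ⟨ent F σ₀ (Y.1 i), ⟨X, hX, hX2, hXe, fun τ h1 h2 => ?_⟩, hsk, hdg, hne⟩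
  have h3 : (Finset.univ.filter fun τ => τ ≠ σ₀ ∧ τ ≠ ComplexEmbedding.conjugate σ₀).inf
      (fun τ => vanAt P i F τ) ≤ vanAt P i F τ :=
    Finset.inf_le (Finset.mem_filter.mpr ⟨Finset.mem_univ _, h1, h2⟩)
  exact (h3 hXJ).1

end family

section final

variable {κ : Type} [Fintype κ] [DecidableEq κ]
    (P : PData κ (2 * Real.pi * Complex.I)) {K : Type} [Field K] [NumberField K] {m : ℕ}
    (F : UF P K m) {k : ℕ}
    (α : (HW (fun _ : Unit => κ) (fun _ => 1)) [⋀^Fin (2 * k)]→ₗ[ℂ] ℂ)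

/-- rotations at all places -/
theorem all_rot2 (hm : 3 ≤ m) (σ₀ : K →+* ℂ) (hL : Lorentz (HG F σ₀))
    (hsep : ∀ τ, τ ≠ σ₀ → τ ≠ ComplexEmbedding.conjugate σ₀ →
      Sep (fun _ : Unit => P) () F σ₀ τ)
    (hB : ∀ v : Fin (2 * k) → HW (fun _ : Unit => κ) (fun _ => 1),
      (∀ r, IsRatP (fun _ => 1) (fun _ : Unit => P) (v r)) →
      ∃ q : ℚ, α v = (2 * Real.pi * Complex.I) ^ k * q)
    (hA : ∀ v : Fin (2 * k) → HW (fun _ : Unit => κ) (fun _ => 1),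
      (∀ r i m j, IsAlgebraic ℚ (v r i m j)) → IsAlgebraic ℚ (α v))
    (σ : K →+* ℂ) : HasRot P F α σ := by
  have hϖ : (2 * Real.pi * Complex.I : ℂ) ≠ 0 := Complex.two_pi_I_ne_zero
  obtain ⟨a, ha⟩ : ∃ a, a = (α : MultilinearMap ℂ
    (fun _ : Fin (2 * k) => HW (fun _ : Unit => κ) (fun _ => 1)) ℂ) := ⟨_, rfl⟩
  have hB' : ∀ v : Fin (2 * k) → HW (fun _ : Unit => κ) (fun _ => 1),
      (∀ r, IsRatP (fun _ => 1) (fun _ : Unit => P) (v r)) →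
      ∃ q : ℚ, a v = (2 * Real.pi * Complex.I) ^ k * q := by rw [ha]; exact hB
  have hA' : ∀ v : Fin (2 * k) → HW (fun _ : Unit => κ) (fun _ => 1),
      (∀ r i m j, IsAlgebraic ℚ (v r i m j)) → IsAlgebraic ℚ (a v) := by rw [ha]; exact hA
  obtain ⟨B, hBc, hBs, hBd, hB0⟩ := concentrated (fun _ => 1) (fun _ : Unit => P) a () F hϖ hB' hA'
    hm σ₀ hL hsep
  obtain ⟨U, V, h1, h2, h3⟩ := Helper36.Ball.M5' hm (HG F σ₀) hL hL.nondeg
    (gAt (fun _ => 1) (fun _ : Unit => P) a () F σ₀)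
    (cAt (fun _ => 1) (fun _ : Unit => P) a () F σ₀)
    (gAt_br (fun _ => 1) (fun _ : Unit => P) a () F σ₀)
    (cAt_le (fun _ => 1) (fun _ : Unit => P) a () F σ₀)
    (cAt_br (fun _ => 1) (fun _ : Unit => P) a () F σ₀)
    (gAt_adj (fun _ => 1) (fun _ : Unit => P) a () F hϖ hB' σ₀)
    (gAt_irr (fun _ => 1) (fun _ : Unit => P) a () F hϖ hB' hA' σ₀)
    B hBc hBs hBd hB0
  obtain ⟨τ, hτ⟩ := Helper84.exists_aut σ₀ σ
  refine ⟨U.map τ, V.map τ, ?_, ?_, fun i j => ?_⟩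
  · rw [← Matrix.map_mul, h1]
    ext a b
    rw [Matrix.map_apply, Matrix.one_apply]
    split_ifs <;> simp
  · rw [← Matrix.map_mul, h2]
    ext a b
    rw [Matrix.map_apply, Matrix.one_apply]
    split_ifs <;> simp
  · have h4 := cAt_tw (fun _ => 1) (fun _ : Unit => P) a () F hϖ hB' τ σ₀ _ (h3 i j)
    rw [Matrix.map_mul, Matrix.map_mul, rot_map, hτ] at h4
    obtain ⟨X, hX, hX2, hX3, hX4⟩ := h4
    rw [ha] at hX
    exact ⟨X, hX, hX2, hX3, hX4⟩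

theorem abstract_ball2 (hm : 3 ≤ m) (σ₀ : K →+* ℂ)
    (hc : NumberField.ComplexEmbedding.conjugate σ₀ ≠ σ₀) (hL : Lorentz (HG F σ₀))
    (hsep : ∀ τ, τ ≠ σ₀ → τ ≠ NumberField.ComplexEmbedding.conjugate σ₀ →
      ∃ g : ℂ ≃+* ℂ, (∃ v, 0 < (hf (HG F ((g : ℂ →+* ℂ).comp σ₀)) v v).re) ∧
        (∃ v, (hf (HG F ((g : ℂ →+* ℂ).comp σ₀)) v v).re < 0) ∧
        Definite (HG F ((g : ℂ →+* ℂ).comp τ)))
    (hB : ∀ v : Fin (2 * k) → HW (fun _ : Unit => κ) (fun _ => 1),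
      (∀ r, IsRatP (fun _ => 1) (fun _ : Unit => P) (v r)) →
      ∃ q : ℚ, α v = (2 * Real.pi * Complex.I) ^ k * q)
    (hA : ∀ v : Fin (2 * k) → HW (fun _ : Unit => κ) (fun _ => 1),
      (∀ r i m j, IsAlgebraic ℚ (v r i m j)) → IsAlgebraic ℚ (α v))
    (hk : 2 * k < detDeg m ∨ Fintype.card κ < 2 * k + detDeg m) :
    α ∈ Submodule.span ℚ {ω | ∃ γ : Fin k → (HW (fun _ : Unit => κ) (fun _ => 1) →ₗ[ℂ]
        HW (fun _ : Unit => κ) (fun _ => 1) →ₗ[ℂ] ℂ),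
      (∀ a, γ a ∈ GW (fun _ => 1) (fun _ : Unit => P)) ∧ ω = wedge γ} :=
  M9a P F α Complex.two_pi_I_ne_zero (fun σ => all_complex P F σ₀ hc σ) hB hA
    (all_rot2 P F α hm σ₀ hL (fun τ h1 h2 => by
      obtain ⟨g, h3, h4, h5⟩ := hsep τ h1 h2
      exact ⟨g, HG_isHermitian F _, h3, h4, h5⟩) hB hA) hk

end final

end Pool.Agent.Ball
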