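import Pool.Agent.Helper8.B.Types2
import Pool.Agent.Helper8.B.Final2
import Pool.Agent.Helper83.Ball.Final

/-!
Grothendieck classes on abelian varieties of ball quotient type, separated places.
-/

open scoped ComplexConjugate

namespace Pool.Agent.Ball

open Module NumberField Matrix Pool.Agent.GPC Pool.Agent.Helper7
open Pool.Agent.Helper39.AF Pool.Agent.Helper71.AF
open Pool.Agent.Helper83.Ball (vec conj_conj' cB_vec hf_HG vec_eq_zero proj_vec exists_vec rho_vec
  HG_herm isEnd_rho pos_fil neg_conj definite_of_pure lorentz_of_one one isIsogeny_one)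

section av

variable {A : AbVar} {K : Type} [Field K] [NumberField K] {m : ℕ} (F : UF (pData A) K m)

/-- the form at a place which is not pure is indefinite -/
lemma indef_of_not_pure (ρ : K → A.H1 → A.H1) (hρ : ∀ x v, F.ρ x v = ρ x v) (σ : K →+* ℂ)
    (h : ¬ A.IsPureAt ρ σ) : (∃ v, 0 < (hf (HG F σ) v v).re) ∧
      ∃ v, (hf (HG F σ) v v).re < 0 := by
  have hvec : ∀ v : A.H1, (∀ x, ρ x v = σ x • v) → ∃ w, vec F σ w = v := fun v hv =>
    (exists_vec F σ v (Pool.Agent.Helper83.Ball.proj_of_eigen F σ v fun x => by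
      rw [hρ]; exact hv x)).imp fun _ h => h.symm
  have h1 : ¬ (∀ v, (∀ x, ρ x v = σ x • v) → A.IsFil v) := fun h' => h (Or.inl h')
  have h2 : ¬ (∀ v, (∀ x, ρ x v = σ x • v) → A.IsFil v → v = 0) := fun h' => h (Or.inr h')
  push Not at h1 h2
  constructor
  · obtain ⟨v, hv, hvF, hv0⟩ := h2
    obtain ⟨w, hw⟩ := hvec v hv
    refine ⟨w, pos_fil F σ w ?_ ?_⟩
    · rintro rfl
      rw [Pool.Agent.Helper83.Ball.vec_zero] at hw
      exact hv0 hw.symm
    · rw [hw]; exact hvF
  · obtain ⟨v, hv, hvF⟩ := h1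
    obtain ⟨w, hw⟩ := hvec v hv
    obtain ⟨u, u', hu, hu', hp, hp', huu⟩ := Pool.Agent.Helper83.Ball.decomp F σ w
    have hu0 : u' ≠ 0 := by
      rintro rfl
      rw [cB_zero, add_zero] at huu
      apply hvF
      rw [← hw, huu]
      exact hu
    have hcp : proj F.ρ σ (cB (pData A) u') = cB (pData A) u' := by
      have h3 := proj_cB A F.ρ (isEnd_rho F) σ u'
      rw [h3, hp']
    obtain ⟨w', hw'⟩ := exists_vec F σ _ hcp
    refine ⟨w', neg_conj F σ w' ?_ u' hu' hw'.symm⟩
    rintro rfl
    rw [Pool.Agent.Helper83.Ball.vec_zero] at hw'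
    exact cB_ne_zero A hu0 hw'

/-- the form at the conjugate place -/
lemma hf_conj_place (σ : K →+* ℂ) (v : Fin m → ℂ) :
    (hf (HG F (ComplexEmbedding.conjugate σ)) (fun a => conj (v a)) (fun a => conj (v a))).re =
      - (hf (HG F σ) v v).re := by
  rw [hf_HG, hf_HG, ← cB_vec, cB_cB, (pData A).hψalt, Complex.neg_re]

end av

theorem nonempty_UF2 (A : AbVar) (K : Type) [Field K] [NumberField K] [IsCMField K] (m : ℕ)
    (ρ : K → A.H1 → A.H1) (C : A.IsBallMultSep K m ρ) :
    ∃ F : UF (pData A) K m, ∀ x v, F.ρ x v = ρ x v := by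
  obtain ⟨R, hR⟩ : ∃ R : K →+* Module.End ℂ A.H1, ∀ x v, R x v = ρ x v :=
    ⟨{  toFun := fun x => IsLinearMap.mk' _ (C.endo x).linear
        map_one' := LinearMap.ext C.one
        map_mul' := fun x y => LinearMap.ext (C.mul x y)
        map_add' := fun x y => LinearMap.ext (C.add x y)
        map_zero' := LinearMap.ext fun v => by
          have h := C.add 0 0 v
          rw [add_zero] at h
          have h2 : ρ 0 v = 0 := by
            have h3 := congrArg (fun w => w - ρ 0 v) h
            simp only [sub_self, add_sub_cancel_right] at h3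
            exact h3.symm
          exact h2 }, fun x v => rfl⟩
  have hE : ∀ x, A.IsEnd (R x) := by
    intro x
    have h1 : (fun v => R x v) = ρ x := funext (hR x)
    have h2 := C.endo x
    rw [← h1] at h2
    exact h2
  have hQ : ∀ x, ∀ v ∈ (pData A).Q, R x v ∈ (pData A).Q :=
    fun x v hv => (isDRB_of_isEnd A _ (hE x)).rat v hv
  obtain ⟨lam, h1, h2, eb, h3⟩ := exists_Kbasis (pData A) R hQ m
    (by rw [card_index, mul_comm, C.rank])
  exact ⟨{  ρ := R
            hρ := fun x => isDRB_of_isEnd A _ (hE x)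
            cc := cmConj K
            hcc := fun σ x => IsCMField.complexEmbedding_complexConj K σ x
            hros := fun x u v => by rw [hR, hR]; exact C.rosati x u v
            hcen := fun f hf hc => by
              obtain ⟨x, hx⟩ := C.centralizer f (isEnd_of_isDRB A f hf) fun x v => by
                rw [← hR, ← hR]; exact hc x v
              exact ⟨x, fun v => by rw [hR]; exact hx v⟩
            hnd := hnd_pData A
            lam := lam
            lam_rat := h1
            gen := h2
            eb := eb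
            heb := h3 }, hR⟩

/-- Grothendieck classes on abelian varieties of ball quotient type are divisorial, below the degree
of the determinants and in the complementary range. -/
theorem main_ball2 (A : AbVar) (K : Type) [Field K] [NumberField K] [IsCMField K] (m : ℕ)
    (ρ : K → A.H1 → A.H1) (C : A.IsBallMultSep K m ρ) (hm : 3 ≤ m) (k : ℕ)
    (hk : 2 * k < (if Even m then m else 2 * m) ∨
      2 * A.g < 2 * k + (if Even m then m else 2 * m)) (α : A.Class (2 * k)) :
    A.IsGrothendieckClass k α ↔ A.IsDivisorialClass k α := by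
  refine ⟨fun hα => ?_, fun h => grothendieck_of_divisorial h⟩
  obtain ⟨F, hF⟩ := nonempty_UF2 A K m ρ C
  obtain ⟨σ₁, hs1, hs2⟩ := C.signature
  have hL := lorentz_of_one F ρ hF σ₁ hs1
  have hc : ComplexEmbedding.conjugate (ComplexEmbedding.conjugate σ₁) ≠
      ComplexEmbedding.conjugate σ₁ := fun h =>
    IsTotallyComplex.complexEmbedding_not_isReal (ComplexEmbedding.conjugate σ₁)
      (ComplexEmbedding.isReal_iff.mpr h)
  have hsep : ∀ τ, τ ≠ ComplexEmbedding.conjugate σ₁ →
      τ ≠ ComplexEmbedding.conjugate (ComplexEmbedding.conjugate σ₁) →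
      ∃ g : ℂ ≃+* ℂ,
        (∃ v, 0 < (hf (HG F ((g : ℂ →+* ℂ).comp (ComplexEmbedding.conjugate σ₁))) v v).re) ∧
        (∃ v, (hf (HG F ((g : ℂ →+* ℂ).comp (ComplexEmbedding.conjugate σ₁))) v v).re < 0) ∧
        Definite (HG F ((g : ℂ →+* ℂ).comp τ)) := by
    intro τ h1 h2
    rw [conj_conj'] at h2
    obtain ⟨g, h3, h4⟩ := hs2 τ h2 h1
    obtain ⟨⟨v, hv⟩, ⟨w, hw⟩⟩ := indef_of_not_pure F ρ hF _ h3
    have h5 : (g : ℂ →+* ℂ).comp (ComplexEmbedding.conjugate σ₁) =
        ComplexEmbedding.conjugate ((g : ℂ →+* ℂ).comp σ₁) :=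
      comp_conj (fun _ : Unit => pData A) () g σ₁ F
    refine ⟨g, ⟨fun a => conj (w a), ?_⟩, ⟨fun a => conj (v a), ?_⟩,
      definite_of_pure F ρ hF _ h4⟩
    · rw [h5, hf_conj_place]
      linarith
    · rw [h5, hf_conj_place]
      linarith
  have hiso := isIsogeny_one A
  have hG := grothendieck_transfer hiso α hα
  set β : Form (fun _ : Unit => A) (fun _ => 1) (2 * k) :=
    α.compLinearMap (one A).symm.toLinearMap with hβ
  have h1 := abstract_ball2 (pData A) F β hm _ hc hL hsep (fun v hv => hG.2 v fun r i j =>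
    (mem_pData_Q _ _).mp (hv r i j)) hG.1 (by rw [card_index]; exact hk)
  have h2 := isDivisorial_of_span (fun _ : Unit => A) (fun _ => 1) k β h1
  have h3 := divisorial_transfer hiso (ι := fun _ => id)
    (fun _ => ⟨⟨⟨fun _ _ => rfl, fun _ _ => rfl⟩, fun _ h => h, fun _ h => h, fun _ h => h⟩,
      fun _ _ => rfl⟩) β h2
  have h4 : β.compLinearMap (one A).toLinearMap = α := by
    ext v
    rfl
  rwa [h4] at h3

end Pool.Agent.Ball
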