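import Pool.Agent.Helper8.B.Rot
import Pool.Agent.Helper20.Ball.RotDef
import Pool.Agent.Helper36.Ball.M5p

/-!
The rotations at all places are symmetries.
-/

open scoped ComplexConjugate

namespace Pool.Agent.Ball

open Module Matrix NumberField Pool.Agent.Helper7
open Pool.Agent.Helper8.D (ent ent_apply ent_act ent_mul)

set_option linter.unusedSectionVars false

lemma rot_map {m : ℕ} (τ : ℂ ≃+* ℂ) (i j : Fin m) : (rot i j).map τ = rot i j := by
  ext a b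
  simp only [rot, Matrix.map_apply, Matrix.sub_apply, Matrix.single_apply]
  rw [map_sub]
  split_ifs <;> simp

section final

variable {κ : Type} [Fintype κ] [DecidableEq κ]
    (P : PData κ (2 * Real.pi * Complex.I)) {K : Type} [Field K] [NumberField K] {m : ℕ}
    (F : UF P K m) {k : ℕ}
    (α : (HW (fun _ : Unit => κ) (fun _ => 1)) [⋀^Fin (2 * k)]→ₗ[ℂ] ℂ)

/-- rotations at all places -/
theorem all_rot (hm : 3 ≤ m) (σ₀ : K →+* ℂ) (hL : Lorentz (HG F σ₀))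
    (hD : ∀ τ, τ ≠ σ₀ → τ ≠ NumberField.ComplexEmbedding.conjugate σ₀ → Definite (HG F τ))
    (hB : ∀ v : Fin (2 * k) → HW (fun _ : Unit => κ) (fun _ => 1),
      (∀ r, IsRatP (fun _ => 1) (fun _ : Unit => P) (v r)) →
      ∃ q : ℚ, α v = (2 * Real.pi * Complex.I) ^ k * q)
    (hA : ∀ v : Fin (2 * k) → HW (fun _ : Unit => κ) (fun _ => 1),
      (∀ r i m j, IsAlgebraic ℚ (v r i m j)) → IsAlgebraic ℚ (α v))
    (σ : K →+* ℂ) : HasRot P F α σ := by
  have hϖ : (2 * Real.pi * Complex.I : ℂ) ≠ 0 := Complex.two_pi_I_ne_zero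
  obtain ⟨a, ha⟩ : ∃ a, a = (α : MultilinearMap ℂ
    (fun _ : Fin (2 * k) => HW (fun _ : Unit => κ) (fun _ => 1)) ℂ) := ⟨_, rfl⟩
  have hB' : ∀ v : Fin (2 * k) → HW (fun _ : Unit => κ) (fun _ => 1),
      (∀ r, IsRatP (fun _ => 1) (fun _ : Unit => P) (v r)) →
      ∃ q : ℚ, a v = (2 * Real.pi * Complex.I) ^ k * q := by rw [ha]; exact hB
  have hA' : ∀ v : Fin (2 * k) → HW (fun _ : Unit => κ) (fun _ => 1),
      (∀ r i m j, IsAlgebraic ℚ (v r i m j)) → IsAlgebraic ℚ (a v) := by rw [ha]; exact hA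
  obtain ⟨Y, hY, hY2, hY0, hYs, hYd, hYc⟩ := exists_hyper (fun _ => 1) (fun _ : Unit => P) a ()
    F (by omega) σ₀
    (fun W hW hst => Helper98.Ball.M2 (fun _ => 1) (fun _ : Unit => P) a () F hϖ hB' hA' σ₀ W hW
      hst) hL hD
  obtain ⟨U, V, h1, h2, h3⟩ := Helper36.Ball.M5' hm (HG F σ₀) hL hL.nondeg
    (gAt (fun _ => 1) (fun _ : Unit => P) a () F σ₀)
    (cAt (fun _ => 1) (fun _ : Unit => P) a () F σ₀)
    (gAt_br (fun _ => 1) (fun _ : Unit => P) a () F σ₀)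
    (cAt_le (fun _ => 1) (fun _ : Unit => P) a () F σ₀)
    (cAt_br (fun _ => 1) (fun _ : Unit => P) a () F σ₀)
    (gAt_adj (fun _ => 1) (fun _ : Unit => P) a () F hϖ hB' σ₀)
    (gAt_irr (fun _ => 1) (fun _ : Unit => P) a () F hϖ hB' hA' σ₀)
    (ent F σ₀ (Y.1 ())) ⟨Y, hY, hY2, rfl, hYc⟩ hYs hYd hY0
  obtain ⟨τ, hτ⟩ := Helper84.exists_aut σ₀ σ
  refine ⟨U.map τ, V.map τ, ?_, ?_, fun i j => ?_⟩
  · rw [← Matrix.map_mul, h1]
    ext a b
    rw [Matrix.map_apply, Matrix.one_apply]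
    split_ifs <;> simp
  · rw [← Matrix.map_mul, h2]
    ext a b
    rw [Matrix.map_apply, Matrix.one_apply]
    split_ifs <;> simp
  · have h4 := cAt_tw (fun _ => 1) (fun _ : Unit => P) a () F hϖ hB' τ σ₀ _ (h3 i j)
    rw [Matrix.map_mul, Matrix.map_mul, rot_map, hτ] at h4
    obtain ⟨X, hX, hX2, hX3, hX4⟩ := h4
    rw [ha] at hX
    exact ⟨X, hX, hX2, hX3, hX4⟩

/-- all places are complex -/
lemma all_complex (F : UF P K m) (σ₀ : K →+* ℂ) (hc : ComplexEmbedding.conjugate σ₀ ≠ σ₀)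
    (σ : K →+* ℂ) : ComplexEmbedding.conjugate σ ≠ σ := by
  intro h
  apply hc
  have h1 : ∀ x, F.cc x = x := by
    intro x
    apply σ.injective
    rw [F.hcc]
    have h2 := RingHom.congr_fun h x
    rw [ComplexEmbedding.conjugate_coe_eq] at h2
    exact h2
  ext x
  rw [ComplexEmbedding.conjugate_coe_eq, ← F.hcc, h1]

end final

end Pool.Agent.Ball
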