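import Pool.Agent.Helper8.B.Struct4
import Pool.Agent.Helper36.Ball.M5p

/-!
The ideal lemma for matrices.
-/

open scoped ComplexConjugate InnerProductSpace

namespace Pool.Agent.Ball

open Module Matrix
open Pool.Agent.Helper36.Ball (TT TT_apply TT_mul TT_bracket)

/-- the ideal lemma for matrices -/
theorem mat_ideal {m : ℕ} (hm : 3 ≤ m) (H : Matrix (Fin m) (Fin m) ℂ) (hL : Lorentz H)
    (hdet : ∀ v, (∀ u, hf H u v = 0) → v = 0)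
    (g : Submodule ℂ (Matrix (Fin m) (Fin m) ℂ))
    (hg : ∀ X ∈ g, ∀ Y ∈ g, X * Y - Y * X ∈ g)
    (hadj : ∀ X ∈ g, ∃ X' ∈ g, ∀ u v, hf H (X' *ᵥ u) v = hf H u (X *ᵥ v))
    (hirr : ∀ U : Submodule ℂ (Fin m → ℂ), (∀ X ∈ g, ∀ v ∈ U, X *ᵥ v ∈ U) → U = ⊥ ∨ U = ⊤)
    (B : Matrix (Fin m) (Fin m) ℂ) (hBg : B ∈ g)
    (hB : ∀ u v, hf H (B *ᵥ u) v + hf H u (B *ᵥ v) = 0)
    (hdiag : ∀ v : Fin m → ℂ, v ∈ Submodule.span ℂ {w | ∃ r : ℝ, B *ᵥ w = (r : ℂ) • w})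
    (hB0 : B ≠ 0) :
    (∃ Z ∈ g, ∀ a : ℂ, B * (B * Z - Z * B) - (B * Z - Z * B) * B ≠ a • 1) ∧
    ∀ c : Submodule ℂ (Matrix (Fin m) (Fin m) ℂ), c ≤ g →
      (∀ X ∈ g, ∀ Y ∈ c, X * Y - Y * X ∈ c) →
      (∀ X ∈ c, ∃ X' ∈ c, ∀ u v, hf H (X' *ᵥ u) v = hf H u (X *ᵥ v)) →
      (∃ X ∈ c, ∀ a : ℂ, X ≠ a • 1) → B ∈ c := by
  classical
  obtain ⟨l, Θ, a, hml, ha, hΘ, hBΘ⟩ := Helper30.Ball.M4 H hL hdet B hB hdiag hB0
  have hl : 0 < l := by omega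
  have haC : (a : ℂ) ≠ 0 := by exact_mod_cast ha
  have hBH : TT Θ B = (a : ℂ) • opH := by
    refine LinearMap.ext fun x => ?_
    show Θ.symm (B *ᵥ Θ x) = (a : ℂ) • opH x
    rw [hBΘ, map_smul, LinearEquiv.symm_apply_apply]
  have hone : TT Θ (1 : Matrix (Fin m) (Fin m) ℂ) = 1 := by
    refine LinearMap.ext fun x => ?_
    show Θ.symm ((1 : Matrix (Fin m) (Fin m) ℂ) *ᵥ Θ x) = x
    rw [one_mulVec, LinearEquiv.symm_apply_apply]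
  have hinj : ∀ X Y, TT Θ X = TT Θ Y → X = Y := fun X Y h => (TT Θ).injective h
  have hg' : ∀ X ∈ g.map (TT Θ).toLinearMap, ∀ Y ∈ g.map (TT Θ).toLinearMap,
      X * Y - Y * X ∈ g.map (TT Θ).toLinearMap := by
    rintro _ ⟨X, hX, rfl⟩ _ ⟨Y, hY, rfl⟩
    exact ⟨X * Y - Y * X, hg X hX Y hY, TT_bracket Θ X Y⟩
  have hH' : (opH : Module.End ℂ (LV l)) ∈ g.map (TT Θ).toLinearMap := by
    refine ⟨(a : ℂ)⁻¹ • B, g.smul_mem _ hBg, ?_⟩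
    show TT Θ ((a : ℂ)⁻¹ • B) = opH
    rw [map_smul, hBH, smul_smul, inv_mul_cancel₀ haC, one_smul]
  have hadj' : ∀ c : Submodule ℂ (Matrix (Fin m) (Fin m) ℂ),
      (∀ X ∈ c, ∃ X' ∈ c, ∀ u v, hf H (X' *ᵥ u) v = hf H u (X *ᵥ v)) →
      ∀ X ∈ c.map (TT Θ).toLinearMap, ∃ X' ∈ c.map (TT Θ).toLinearMap,
        ∀ u v, Ball.hm (X' u) v = Ball.hm u (X v) := by
    rintro c hc _ ⟨X, hX, rfl⟩
    obtain ⟨X', hX', h⟩ := hc X hX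
    refine ⟨TT Θ X', ⟨X', hX', rfl⟩, fun u v => ?_⟩
    show Ball.hm (Θ.symm (X' *ᵥ Θ u)) v = Ball.hm u (Θ.symm (X *ᵥ Θ v))
    rw [← hΘ, ← hΘ, LinearEquiv.apply_symm_apply, LinearEquiv.apply_symm_apply, h]
  have hirr' : ∀ U : Submodule ℂ (LV l), (∀ X ∈ g.map (TT Θ).toLinearMap, ∀ v ∈ U, X v ∈ U) →
      U = ⊥ ∨ U = ⊤ := by
    intro U hU
    rcases hirr (U.map (Θ : LV l →ₗ[ℂ] (Fin m → ℂ))) (by
      rintro X hX _ ⟨v, hv, rfl⟩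
      refine ⟨TT Θ X v, hU _ ⟨X, hX, rfl⟩ v hv, ?_⟩
      show Θ (Θ.symm (X *ᵥ Θ v)) = X *ᵥ Θ v
      rw [LinearEquiv.apply_symm_apply]) with h | h
    · left
      rw [Submodule.map_eq_bot_iff] at h
      exact h
    · right
      rw [eq_top_iff]
      intro x _
      have h1 : Θ x ∈ U.map (Θ : LV l →ₗ[ℂ] (Fin m → ℂ)) := by rw [h]; trivial
      obtain ⟨y, hy, hyx⟩ := h1
      have h2 : y = x := Θ.injective hyx
      rw [← h2]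
      exact hy
  constructor
  · obtain ⟨r, hr⟩ := structure_thm (g.map (TT Θ).toLinearMap) (g.map (TT Θ).toLinearMap)
      hg' le_rfl hg' hH' (hadj' g hadj) hirr' hl
    obtain ⟨⟨Z, hZ, hZ'⟩, -⟩ := hr ⟨0, hl⟩
    have hZ'' : TT Θ Z = opY (r ⟨0, hl⟩) (r ⟨0, hl⟩) := hZ'
    refine ⟨Z, hZ, fun b hb => ?_⟩
    have h1 := congrArg (TT Θ) hb
    rw [TT_bracket, TT_bracket, hBH, hZ'', map_smul, hone] at h1
    have hHY : (opH : Module.End ℂ (LV l)) * opY (r ⟨0, hl⟩) (r ⟨0, hl⟩) -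
        opY (r ⟨0, hl⟩) (r ⟨0, hl⟩) * opH = opY (r ⟨0, hl⟩) (r ⟨0, hl⟩) := br_HY _ _
    have h2 : ((a : ℂ) • (opH : Module.End ℂ (LV l))) * opY (r ⟨0, hl⟩) (r ⟨0, hl⟩) -
        opY (r ⟨0, hl⟩) (r ⟨0, hl⟩) * ((a : ℂ) • opH) =
        (a : ℂ) • opY (r ⟨0, hl⟩) (r ⟨0, hl⟩) := by
      rw [smul_mul_assoc, mul_smul_comm]
      exact (smul_sub (a : ℂ) _ _).symm.trans (by rw [hHY])
    rw [h2] at h1
    have h3 : ((a : ℂ) • (opH : Module.End ℂ (LV l))) *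
        ((a : ℂ) • opY (r ⟨0, hl⟩) (r ⟨0, hl⟩)) -
        ((a : ℂ) • opY (r ⟨0, hl⟩) (r ⟨0, hl⟩)) * ((a : ℂ) • opH) =
        ((a : ℂ) * a) • opY (r ⟨0, hl⟩) (r ⟨0, hl⟩) := by
      rw [smul_mul_smul_comm, smul_mul_smul_comm]
      exact (smul_sub ((a : ℂ) * a) _ _).symm.trans (by rw [hHY])
    rw [h3] at h1
    have h4 := LinearMap.congr_fun h1 (iM 1)
    have h5 := congrArg (fun x : LV l => x.2.1) h4
    have h6 : ((a : ℂ) * a) • ((1 : ℂ) • r ⟨0, hl⟩) = b • (0 : EW l) := h5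
    rw [one_smul, smul_zero] at h6
    rcases smul_eq_zero.mp h6 with h7 | h7
    · exact mul_ne_zero haC haC h7
    · exact r.toBasis.ne_zero ⟨0, hl⟩ (by rw [OrthonormalBasis.coe_toBasis]; exact h7)
  · intro c hcg hc hadjc hns
    have h1 := ideal_thm (g.map (TT Θ).toLinearMap) (c.map (TT Θ).toLinearMap)
      hg' (Submodule.map_mono hcg) (by
        rintro _ ⟨X, hX, rfl⟩ _ ⟨Y, hY, rfl⟩
        exact ⟨X * Y - Y * X, hc X hX Y hY, TT_bracket Θ X Y⟩) hH' (hadj' g hadj)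
      (hadj' c hadjc) hirr' hl (by
        obtain ⟨X, hX, hX0⟩ := hns
        refine ⟨TT Θ X, ⟨X, hX, rfl⟩, fun b hb => hX0 b ?_⟩
        apply hinj
        rw [hb, map_smul, hone])
    obtain ⟨X, hX, hX'⟩ := h1
    have h2 : TT Θ X = opH := hX'
    have h3 : B = (a : ℂ) • X := by
      apply hinj
      rw [hBH, map_smul, h2]
    rw [h3]
    exact c.smul_mem _ hX

end Pool.Agent.Ball
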