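import Pool.Agent.Helper8.B.Rot
import Pool.Agent.Helper8.B.IdealMat
import Pool.Agent.Helper8.B.AllRot

/-!
Concentration: separation of a Lorentzian place from the other places.
-/

open scoped ComplexConjugate

namespace Pool.Agent.Ball

open Module Matrix NumberField Pool.Agent.Helper7
open Pool.Agent.Helper8.D (ent ent_apply ent_act ent_mul)
open Pool.Agent.Helper28.GPC (tw isInv_tw entry_tw tw_star tw_snd)

set_option linter.unusedSectionVars false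

section family

variable {I : Type} [Fintype I] [DecidableEq I] (n : I → ℕ)
  {κ : I → Type} [∀ i, Fintype (κ i)] [∀ i, DecidableEq (κ i)] {ϖ : ℂ}
  (P : ∀ i, PData (κ i) ϖ)
  {k : ℕ} (α : MultilinearMap ℂ (fun _ : Fin (2 * k) => HW κ n) ℂ)
  (i : I) {K : Type} [Field K] [NumberField K] {m : ℕ} (F : UF (P i) K m)

/-- the subspaces which meet the Lie algebra in an ideal which is stable under conjugation -/
structure IsIdl (J : Submodule ℂ (GG κ)) : Prop where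
  br : ∀ X Y, IsInv n P α X → IsInv n P α Y → Y ∈ J → X * Y - Y * X ∈ J
  star : ∀ X, IsInv n P α X → X ∈ J → tw P (starRingAut : ℂ ≃+* ℂ) X ∈ J

lemma IsIdl.top : IsIdl n P α ⊤ where
  br _ _ _ _ _ := trivial
  star _ _ _ := trivial

variable {n P α} in
lemma IsIdl.inf {J J' : Submodule ℂ (GG κ)} (h : IsIdl n P α J) (h' : IsIdl n P α J') :
    IsIdl n P α (J ⊓ J') where
  br X Y hX hY hJ := ⟨h.br X Y hX hY hJ.1, h'.br X Y hX hY hJ.2⟩
  star X hX hJ := ⟨h.star X hX hJ.1, h'.star X hX hJ.2⟩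

/-- the image of an ideal at a place -/
noncomputable def kAt (J : Submodule ℂ (GG κ)) (σ : K →+* ℂ) :
    Submodule ℂ (Matrix (Fin m) (Fin m) ℂ) where
  carrier := {M | ∃ X, IsInv n P α X ∧ X.2 = 0 ∧ X ∈ J ∧ ent F σ (X.1 i) = M}
  zero_mem' := ⟨0, IsInv.zero n P α, rfl, J.zero_mem, by
    show ent F σ (0 : Module.End ℂ (κ i → ℂ)) = 0
    rw [map_zero]⟩
  add_mem' := by
    rintro _ _ ⟨X, hX, h2, h4, rfl⟩ ⟨Y, hY, h3, h5, rfl⟩
    refine ⟨X + Y, hX.add n P α hY, ?_, J.add_mem h4 h5, ?_⟩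
    · show X.2 + Y.2 = 0
      rw [h2, h3, add_zero]
    · show ent F σ (X.1 i + Y.1 i) = _
      rw [map_add]
  smul_mem' := by
    rintro c _ ⟨X, hX, h2, h4, rfl⟩
    refine ⟨c • X, hX.smul n P α c, ?_, J.smul_mem c h4, ?_⟩
    · show c • X.2 = 0
      rw [h2, smul_zero]
    · show ent F σ (c • X.1 i) = _
      rw [map_smul]

lemma kAt_le (J : Submodule ℂ (GG κ)) (σ : K →+* ℂ) : kAt n P α i F J σ ≤ gAt n P α i F σ := by
  rintro _ ⟨X, hX, h2, -, rfl⟩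
  exact ⟨X, hX, h2, rfl⟩

lemma kAt_top (σ : K →+* ℂ) : gAt n P α i F σ ≤ kAt n P α i F ⊤ σ := by
  rintro _ ⟨X, hX, h2, rfl⟩
  exact ⟨X, hX, h2, trivial, rfl⟩

lemma kAt_br {J : Submodule ℂ (GG κ)} (hJ : IsIdl n P α J) (σ : K →+* ℂ) :
    ∀ A ∈ gAt n P α i F σ, ∀ B ∈ kAt n P α i F J σ, A * B - B * A ∈ kAt n P α i F J σ := by
  rintro _ ⟨X, hX, h2, rfl⟩ _ ⟨Y, hY, h3, h4, rfl⟩
  refine ⟨X * Y - Y * X, hX.bracket n P α hY, ?_, hJ.br X Y hX hY h4, ent_br n P α i F σ hX hY⟩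
  show X.2 * Y.2 - Y.2 * X.2 = 0
  ring

variable (hϖ : ϖ ≠ 0)
  (hB : ∀ v : Fin (2 * k) → HW κ n, (∀ r, IsRatP n P (v r)) → ∃ q : ℚ, α v = ϖ ^ k * q)
  (hA : ∀ v : Fin (2 * k) → HW κ n, (∀ r i m j, IsAlgebraic ℚ (v r i m j)) →
      IsAlgebraic ℚ (α v))

include hϖ hB in
/-- adjoints -/
lemma kAt_adj {J : Submodule ℂ (GG κ)} (hJ : IsIdl n P α J) (σ : K →+* ℂ) :
    ∀ A ∈ kAt n P α i F J σ, ∃ A' ∈ kAt n P α i F J σ,
    ∀ u v, hf (HG F σ) (A' *ᵥ u) v = hf (HG F σ) u (A *ᵥ v) := by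
  rintro _ ⟨X, hX, h2, h4, rfl⟩
  obtain ⟨Y, hY⟩ : ∃ Y, Y = tw P (starRingAut : ℂ ≃+* ℂ) X := ⟨_, rfl⟩
  have hYi : IsInv n P α Y := by rw [hY]; exact isInv_tw n P α hϖ hB _ X hX
  have hYJ : Y ∈ J := by rw [hY]; exact hJ.star X hX h4
  have hYs : ∀ v, Y.1 i v = cB (P i) (X.1 i (cB (P i) v)) := by
    intro v
    rw [hY]
    exact tw_star P X i v
  have hY2 : Y.2 = 0 := by
    rw [hY, tw_snd, h2, map_zero]
  refine ⟨ent F σ (((-1 : ℂ) • Y).1 i), ⟨_, hYi.smul n P α (-1), ?_, J.smul_mem _ hYJ, rfl⟩, ?_⟩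
  · show (-1 : ℂ) • Y.2 = 0
    rw [hY2, smul_zero]
  · intro u v
    have hc : F.Comm (((-1 : ℂ) • Y).1 i) := F.comm_of_isInv n P α i (hYi.smul n P α (-1))
    rw [← hf_eq, ← hf_eq, ← act_pv F hc, ← act_pv F (F.comm_of_isInv n P α i hX)]
    show (P i).ψ (cB (P i) ((-1 : ℂ) • Y.1 i (pv F σ u))) (pv F σ v) = _
    rw [hYs, cB_smul, cB_cB, map_neg, map_one, map_smul, LinearMap.smul_apply, smul_eq_mul]
    have h1 := hX.pol i (cB (P i) (pv F σ u)) (pv F σ v)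
    rw [h2, zero_mul] at h1
    linear_combination -h1

/-- the operators which vanish at a place and at its conjugate -/
noncomputable def vanAt (τ : K →+* ℂ) : Submodule ℂ (GG κ) where
  carrier := {X | ent F τ (X.1 i) = 0 ∧ ent F (ComplexEmbedding.conjugate τ) (X.1 i) = 0}
  zero_mem' := by
    constructor
    · show ent F τ (0 : Module.End ℂ (κ i → ℂ)) = 0
      rw [map_zero]
    · show ent F _ (0 : Module.End ℂ (κ i → ℂ)) = 0
      rw [map_zero]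
  add_mem' := by
    rintro X Y ⟨h1, h2⟩ ⟨h3, h4⟩
    constructor
    · show ent F τ (X.1 i + Y.1 i) = 0
      rw [map_add, h1, h3, add_zero]
    · show ent F _ (X.1 i + Y.1 i) = 0
      rw [map_add, h2, h4, add_zero]
  smul_mem' := by
    rintro c X ⟨h1, h2⟩
    constructor
    · show ent F τ (c • X.1 i) = 0
      rw [map_smul, h1, smul_zero]
    · show ent F _ (c • X.1 i) = 0
      rw [map_smul, h2, smul_zero]

lemma mem_vanAt (τ : K →+* ℂ) (X : GG κ) : X ∈ vanAt P i F τ ↔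
    ent F τ (X.1 i) = 0 ∧ ent F (ComplexEmbedding.conjugate τ) (X.1 i) = 0 := Iff.rfl

include hϖ hB in
lemma ent_star (σ : K →+* ℂ) {X : GG κ} (hX : IsInv n P α X) :
    ent F (ComplexEmbedding.conjugate σ) ((tw P (starRingAut : ℂ ≃+* ℂ) X).1 i) =
      (ent F σ (X.1 i)).map (starRingAut : ℂ ≃+* ℂ) := by
  ext a b
  exact entry_tw (K := fun _ => K) n P α hϖ hB (starRingAut : ℂ ≃+* ℂ) X hX i F σ a b

lemma conj_conj_emb (σ : K →+* ℂ) :
    ComplexEmbedding.conjugate (ComplexEmbedding.conjugate σ) = σ := by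
  ext x
  rw [ComplexEmbedding.conjugate_coe_eq, ComplexEmbedding.conjugate_coe_eq, Complex.conj_conj]

include hϖ hB in
lemma isIdl_vanAt (τ : K →+* ℂ) : IsIdl n P α (vanAt P i F τ) where
  br X Y hX hY h := by
    obtain ⟨h1, h2⟩ := h
    constructor
    · rw [ent_br n P α i F τ hX hY, h1, mul_zero, zero_mul, sub_zero]
    · rw [ent_br n P α i F _ hX hY, h2, mul_zero, zero_mul, sub_zero]
  star X hX h := by
    obtain ⟨h1, h2⟩ := h
    constructor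
    · have h3 := ent_star n P α i F hϖ hB (ComplexEmbedding.conjugate τ) hX
      rw [conj_conj_emb, h2, Matrix.map_zero _ (map_zero _)] at h3
      exact h3
    · rw [ent_star n P α i F hϖ hB τ hX, h1, Matrix.map_zero _ (map_zero _)]

/-- concentration at the intersection of two ideals -/
lemma conc_inf (σ : K →+* ℂ) (B : Matrix (Fin m) (Fin m) ℂ)
    (hZ : ∃ Z ∈ gAt n P α i F σ, ∀ a : ℂ, B * (B * Z - Z * B) - (B * Z - Z * B) * B ≠ a • 1)
    (hI : ∀ c : Submodule ℂ (Matrix (Fin m) (Fin m) ℂ), c ≤ gAt n P α i F σ →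
      (∀ X ∈ gAt n P α i F σ, ∀ Y ∈ c, X * Y - Y * X ∈ c) →
      (∀ X ∈ c, ∃ X' ∈ c, ∀ u v, hf (HG F σ) (X' *ᵥ u) v = hf (HG F σ) u (X *ᵥ v)) →
      (∃ X ∈ c, ∀ a : ℂ, X ≠ a • 1) → B ∈ c)
    {J J' : Submodule ℂ (GG κ)} (hJ : IsIdl n P α J) (hJ' : IsIdl n P α J')
    (h : B ∈ kAt n P α i F J σ) (h' : B ∈ kAt n P α i F J' σ)
    (hadj : ∀ A ∈ kAt n P α i F (J ⊓ J') σ, ∃ A' ∈ kAt n P α i F (J ⊓ J') σ,
      ∀ u v, hf (HG F σ) (A' *ᵥ u) v = hf (HG F σ) u (A *ᵥ v)) :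
    B ∈ kAt n P α i F (J ⊓ J') σ := by
  refine hI _ (kAt_le n P α i F _ σ) (kAt_br n P α i F (hJ.inf hJ') σ) hadj ?_
  obtain ⟨_, ⟨Z, hZ1, hZ2, rfl⟩, hZ0⟩ := hZ
  refine ⟨_, ?_, hZ0⟩
  obtain ⟨X, hX, hX2, hXJ, hXe⟩ := h
  obtain ⟨Y, hY, hY2, hYJ, hYe⟩ := h'
  have hYZ := hY.bracket n P α hZ1
  refine ⟨X * (Y * Z - Z * Y) - (Y * Z - Z * Y) * X, hX.bracket n P α hYZ, ?_, ⟨?_, ?_⟩, ?_⟩
  · show X.2 * (Y.2 * Z.2 - Z.2 * Y.2) - (Y.2 * Z.2 - Z.2 * Y.2) * X.2 = 0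
    ring
  · have h1 := J.neg_mem (hJ.br _ _ hYZ hX hXJ)
    rw [neg_sub] at h1
    exact h1
  · have h1 : Y * Z - Z * Y ∈ J' := by
      have h2 := J'.neg_mem (hJ'.br _ _ hZ1 hY hYJ)
      rw [neg_sub] at h2
      exact h2
    exact hJ'.br _ _ hX hYZ h1
  · rw [ent_br n P α i F σ hX hYZ, ent_br n P α i F σ hY hZ1, hXe, hYe]

/-- the hyperbolic element at an indefinite place -/
theorem exists_hyper_at (ρ : K →+* ℂ)
    (hirr : ∀ W : Submodule ℂ (κ i → ℂ), W ≤ Submodule.span ℂ (Set.range (F.e ρ)) →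
      (∀ g, IsGrp n P α g → ∀ v ∈ W, g i v ∈ W) →
      W = ⊥ ∨ W = Submodule.span ℂ (Set.range (F.e ρ)))
    (hH : (HG F ρ).IsHermitian) (hpos : ∃ v, 0 < (hf (HG F ρ) v v).re)
    (hneg : ∃ v, (hf (HG F ρ) v v).re < 0) :
    ∃ Y : GG κ, IsInv n P α Y ∧ Y.2 = 0 ∧ (∀ a : ℂ, ent F ρ (Y.1 i) ≠ a • 1) ∧
      (∀ τ, (∀ u v, hf (HG F τ) (ent F τ (Y.1 i) *ᵥ u) v +
        hf (HG F τ) u (ent F τ (Y.1 i) *ᵥ v) = 0) ∧
        ∀ v : Fin m → ℂ, v ∈ Submodule.span ℂ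
        {w | ∃ r : ℝ, ent F τ (Y.1 i) *ᵥ w = (r : ℂ) • w}) ∧
      ∀ τ, Definite (HG F τ) → Y ∈ vanAt P i F τ := by
  obtain ⟨M, hM, μ, v, hv0, hv, hμ⟩ := Helper20.Ball.M3 (HG F ρ) hH hpos hneg
    (grpAt n P α i F ρ) (grpAt_inv n P α i F ρ)
    (grpAt_form n P α i F ρ) (grpAt_irr n P α i F ρ hirr)
  obtain ⟨g, hg, rfl⟩ := hM
  obtain ⟨Y, hY, hY2, hr, hl⟩ := Helper65.Ball.M1 n P α g hg
  have hc := F.comm_of_isInv n P α i hY
  have hne : ent F ρ (Y.1 i) ≠ 0 := by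
    intro h0
    have h1 : g i (pv F ρ v) = μ • pv F ρ v := by
      rw [act_pv F (hg.commF F), hv, map_smul]
    have h2 : pv F ρ v ∈ (g i).maxGenEigenspace μ := by
      rw [Module.End.mem_maxGenEigenspace]
      refine ⟨1, ?_⟩
      rw [pow_one, LinearMap.sub_apply, LinearMap.smul_apply, Module.End.one_apply, h1, sub_self]
    have h3 := hl i μ _ h2
    rw [act_pv F hc, h0, Matrix.zero_mulVec, map_zero] at h3
    rcases smul_eq_zero.mp h3.symm with h4 | h4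
    · have h5 : Real.log ‖μ‖ = 0 := by exact_mod_cast h4
      rcases Real.log_eq_zero.mp h5 with h6 | h6 | h6
      · have h7 : μ = 0 := norm_eq_zero.mp h6
        rw [h7, zero_smul] at h1
        have h8 := hg.injective n P α i (h1.trans (map_zero _).symm)
        exact hv0 (pv_injective F ρ (h8.trans (map_zero _).symm))
      · exact hμ h6
      · have := norm_nonneg μ
        linarith
    · exact hv0 (pv_injective F ρ (h4.trans (map_zero _).symm))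
  have hsk : ∀ τ u v, hf (HG F τ) (ent F τ (Y.1 i) *ᵥ u) v +
      hf (HG F τ) u (ent F τ (Y.1 i) *ᵥ v) = 0 := fun τ =>
    skew_at n P α i F τ hY hY2 (hr i)
  have hdg : ∀ τ, ∀ v : Fin m → ℂ, v ∈ Submodule.span ℂ
      {w | ∃ r : ℝ, ent F τ (Y.1 i) *ᵥ w = (r : ℂ) • w} := fun τ =>
    diag_at n P α i F τ hY (hl i)
  refine ⟨Y, hY, hY2, ?_, fun τ => ⟨hsk τ, hdg τ⟩, ?_⟩
  · intro a ha
    obtain ⟨w, hw⟩ := hpos
    have hw0 : w ≠ 0 := by
      rintro rfl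
      rw [hf_zero_right] at hw
      exact lt_irrefl _ hw
    -- the eigenvalue is real
    have hreal : ∃ r : ℝ, a = (r : ℂ) := by
      have h1 := hdg ρ w
      by_contra hcon
      push Not at hcon
      have h2 : {w' | ∃ r : ℝ, ent F ρ (Y.1 i) *ᵥ w' = (r : ℂ) • w'} ⊆ ({0} : Set (Fin m → ℂ)) := by
        rintro w' ⟨r, hr'⟩
        rw [ha, Matrix.smul_mulVec, one_mulVec, ← sub_eq_zero, ← sub_smul] at hr'
        rcases smul_eq_zero.mp hr' with h3 | h3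
        · exact absurd (sub_eq_zero.mp h3) (hcon r)
        · exact h3
      have h3 := Submodule.span_mono h2 h1
      rw [Submodule.span_zero_singleton, Submodule.mem_bot] at h3
      exact hw0 h3
    obtain ⟨r, hr'⟩ := hreal
    have h1 := hsk ρ w w
    rw [ha, Matrix.smul_mulVec, one_mulVec, hf_smul_left, hf_smul_right, hr',
      Complex.conj_ofReal, ← two_mul] at h1
    have h2 : hf (HG F ρ) w w ≠ 0 := by
      intro h
      rw [h] at hw
      exact lt_irrefl _ hw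
    have h3 : (r : ℂ) = 0 :=
      (mul_eq_zero.mp ((mul_eq_zero.mp h1).resolve_left two_ne_zero)).resolve_right h2
    apply hne
    rw [ha, hr', h3, zero_smul]
  · intro τ hD
    have h1 : ent F τ (Y.1 i) = 0 := zero_of_definite hD (hsk τ) (hdg τ)
    refine ⟨h1, ?_⟩
    ext a b
    rw [ent_apply, ← cB_e, hr i]
    have h2 : Y.1 i (F.e τ b) = 0 := by
      rw [ent_act F τ (Y.1 i) hc, h1]
      simp
    rw [h2]
    have h3 : cB (P i) 0 = 0 := by
      have := cB_smul (P i) 0 0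
      rw [zero_smul, map_zero, zero_smul] at this
      exact this
    rw [h3, map_zero]
    rfl

end family

section herm

variable {κ : Type} [Fintype κ] [DecidableEq κ] {P : PData κ (2 * Real.pi * Complex.I)}
  {K : Type} [Field K] [NumberField K] {m : ℕ}

lemma HG_isHermitian (F : UF P K m) (σ : K →+* ℂ) : (HG F σ).IsHermitian := by
  ext a b
  show conj (P.ψ (F.e (ComplexEmbedding.conjugate σ) b) (F.e σ a)) =
    P.ψ (F.e (ComplexEmbedding.conjugate σ) a) (F.e σ b)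
  have h1 := psi_cB P (F.e (ComplexEmbedding.conjugate σ) b) (F.e σ a)
  rw [cB_e, cB_e, conj_conj_emb, P.hψalt] at h1
  exact (neg_injective h1).symm

end herm

end Pool.Agent.Ball
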