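import Pool.Agent.Helper8.B.Place
import Pool.Agent.Helper65.Ball.M1
import Pool.Agent.Helper20.Ball.M3

/-!
Existence of a hyperbolic element in the Lie algebra of symmetries.
-/

open scoped ComplexConjugate

namespace Pool.Agent.Ball

open Module Matrix NumberField Pool.Agent.Helper7
open Pool.Agent.Helper8.D (ent ent_apply ent_act ent_mul)

set_option linter.unusedSectionVars false

section family

variable {I : Type} [Fintype I] [DecidableEq I] (n : I → ℕ)
  {κ : I → Type} [∀ i, Fintype (κ i)] [∀ i, DecidableEq (κ i)] {ϖ : ℂ}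
  (P : ∀ i, PData (κ i) ϖ)
  {k : ℕ} (α : MultilinearMap ℂ (fun _ : Fin (2 * k) => HW κ n) ℂ)
  (i : I) {K : Type} [Field K] [NumberField K] {m : ℕ} (F : UF (P i) K m)

lemma IsGrp.injective {g : (i : I) → Module.End ℂ (κ i → ℂ)} (hg : IsGrp n P α g) (i : I) :
    Function.Injective (g i) := by
  rw [injective_iff_map_eq_zero]
  intro u hu
  refine (P i).hψnd u fun v => ?_
  rw [← hg.pol, hu, map_zero, LinearMap.zero_apply]

lemma IsGrp.one : IsGrp n P α (fun _ => 1) where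
  comm i j f hf v := rfl
  pol i u v := rfl
  form v := rfl
  real i v := rfl

lemma IsGrp.mul {g h : (i : I) → Module.End ℂ (κ i → ℂ)} (hg : IsGrp n P α g)
    (hh : IsGrp n P α h) : IsGrp n P α (fun i => g i * h i) where
  comm i j f hf v := by
    rw [Module.End.mul_apply, Module.End.mul_apply, hh.comm i j f hf, hg.comm i j f hf]
  pol i u v := by
    rw [Module.End.mul_apply, Module.End.mul_apply, hg.pol, hh.pol]
  form v := by
    have h1 := hg.form (fun r => lift n h (v r))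
    rw [hh.form] at h1
    exact h1
  real i v := by
    rw [Module.End.mul_apply, Module.End.mul_apply, hh.real, hg.real]

/-- the inverse of a symmetry -/
lemma IsGrp.exists_inv {g : (i : I) → Module.End ℂ (κ i → ℂ)} (hg : IsGrp n P α g) :
    ∃ h : (i : I) → Module.End ℂ (κ i → ℂ), IsGrp n P α h ∧ (∀ i v, g i (h i v) = v) ∧
      ∀ i v, h i (g i v) = v := by
  choose e he using fun i : I => (⟨LinearEquiv.ofInjectiveEndo (g i) (hg.injective n P α i),
    fun v => by rw [LinearEquiv.coe_ofInjectiveEndo]⟩ :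
      ∃ e : (κ i → ℂ) ≃ₗ[ℂ] (κ i → ℂ), ∀ v, e v = g i v)
  have h1 : ∀ i v, g i ((e i).symm v) = v := fun i v => by
    rw [← he, LinearEquiv.apply_symm_apply]
  have h2 : ∀ i v, (e i).symm (g i v) = v := fun i v => by
    rw [← he, LinearEquiv.symm_apply_apply]
  refine ⟨fun i => ((e i).symm : (κ i → ℂ) →ₗ[ℂ] (κ i → ℂ)), ⟨?_, ?_, ?_, ?_⟩, h1, h2⟩
  · intro i j f hf v
    apply hg.injective n P α j
    show g j ((e j).symm (f v)) = g j (f ((e i).symm v))
    rw [h1, hg.comm i j f hf, h1]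
  · intro i u v
    show (P i).ψ ((e i).symm u) ((e i).symm v) = _
    rw [← hg.pol, h1, h1]
  · intro v
    have h3 := hg.form (fun r => lift n
      (fun i => ((e i).symm : (κ i → ℂ) →ₗ[ℂ] (κ i → ℂ))) (v r))
    rw [← h3]
    congr 1
    funext r i m
    exact h1 i _
  · intro i v
    apply hg.injective n P α i
    show g i ((e i).symm (cB (P i) v)) = g i (cB (P i) ((e i).symm v))
    rw [h1, hg.real, h1]

variable {n P α} in
lemma IsGrp.commF {g : (i : I) → Module.End ℂ (κ i → ℂ)} (hg : IsGrp n P α g) {i : I}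
    (F : UF (P i) K m) : F.Comm (g i) :=
  fun x v => hg.comm i i _ (F.hρ x) v

lemma ent_one (σ : K →+* ℂ) : ent F σ 1 = 1 := by
  classical
  ext a b
  rw [ent_apply, Module.End.one_apply, F.co_e, Matrix.one_apply]
  by_cases h : a = b
  · simp [h]
  · simp [h]

/-- the group of matrices at a place -/
noncomputable def grpAt (σ : K →+* ℂ) : Submonoid (Matrix (Fin m) (Fin m) ℂ) where
  carrier := {M | ∃ g, IsGrp n P α g ∧ ent F σ (g i) = M}
  one_mem' := ⟨_, IsGrp.one n P α, ent_one P i F σ⟩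
  mul_mem' := by
    rintro _ _ ⟨g, hg, rfl⟩ ⟨h, hh, rfl⟩
    exact ⟨_, hg.mul n P α hh, ent_mul F σ _ _ (hh.commF F)⟩

lemma mem_grpAt (σ : K →+* ℂ) (M : Matrix (Fin m) (Fin m) ℂ) :
    M ∈ grpAt n P α i F σ ↔ ∃ g, IsGrp n P α g ∧ ent F σ (g i) = M := Iff.rfl

lemma grpAt_inv (σ : K →+* ℂ) (M : Matrix (Fin m) (Fin m) ℂ) (hM : M ∈ grpAt n P α i F σ) :
    ∃ M' ∈ grpAt n P α i F σ, M * M' = 1 := by
  obtain ⟨g, hg, rfl⟩ := hM
  obtain ⟨h, hh, h1, -⟩ := hg.exists_inv n P α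
  refine ⟨_, ⟨h, hh, rfl⟩, ?_⟩
  rw [← ent_mul F σ _ _ (hh.commF F)]
  have h2 : g i * h i = 1 := LinearMap.ext fun v => h1 i v
  rw [h2, ent_one]

lemma grpAt_form (σ : K →+* ℂ) (M : Matrix (Fin m) (Fin m) ℂ) (hM : M ∈ grpAt n P α i F σ) :
    Mᴴ * HG F σ * M = HG F σ := by
  obtain ⟨g, hg, rfl⟩ := hM
  apply eq_of_hf
  intro u v
  rw [hf_conjT, ← hf_eq, ← hf_eq, ← act_pv F (hg.commF F), ← act_pv F (hg.commF F), ← hg.real,
    hg.pol]

/-- irreducibility of the group of matrices -/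
lemma grpAt_irr (σ : K →+* ℂ)
    (hirr : ∀ W : Submodule ℂ (κ i → ℂ), W ≤ Submodule.span ℂ (Set.range (F.e σ)) →
      (∀ g, IsGrp n P α g → ∀ v ∈ W, g i v ∈ W) →
      W = ⊥ ∨ W = Submodule.span ℂ (Set.range (F.e σ)))
    (U : Submodule ℂ (Fin m → ℂ)) (hU : ∀ M ∈ grpAt n P α i F σ, ∀ v ∈ U, M *ᵥ v ∈ U) :
    U = ⊥ ∨ U = ⊤ := by
  have hrange : Submodule.span ℂ (Set.range (F.e σ)) = LinearMap.range (pv F σ) := by
    rw [pv, Fintype.range_linearCombination]
  rcases hirr (U.map (pv F σ)) (by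
    rw [hrange]
    exact LinearMap.map_le_range) (by
    rintro g hg _ ⟨u, hu, rfl⟩
    rw [act_pv F (hg.commF F)]
    exact ⟨_, hU _ ⟨g, hg, rfl⟩ u hu, rfl⟩) with h | h
  · left
    rw [eq_bot_iff]
    intro u hu
    have h1 : pv F σ u ∈ U.map (pv F σ) := ⟨u, hu, rfl⟩
    rw [h, Submodule.mem_bot] at h1
    exact pv_injective F σ (h1.trans (map_zero _).symm)
  · right
    rw [eq_top_iff]
    intro u _
    have h1 : pv F σ u ∈ U.map (pv F σ) := by
      rw [h, hrange]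
      exact ⟨u, rfl⟩
    obtain ⟨w, hw, h2⟩ := h1
    rw [← pv_injective F σ h2]
    exact hw

/-- a real symmetry of multiplier zero is skew at the places -/
lemma skew_at (σ : K →+* ℂ) {Y : GG κ} (hY : IsInv n P α Y) (hY2 : Y.2 = 0)
    (hr : ∀ v, Y.1 i (cB (P i) v) = cB (P i) (Y.1 i v)) (u v : Fin m → ℂ) :
    hf (HG F σ) (ent F σ (Y.1 i) *ᵥ u) v + hf (HG F σ) u (ent F σ (Y.1 i) *ᵥ v) = 0 := by
  have hc := F.comm_of_isInv n P α i hY
  rw [← hf_eq, ← hf_eq, ← act_pv F hc, ← act_pv F hc, ← hr]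
  have h1 := hY.pol i (cB (P i) (pv F σ u)) (pv F σ v)
  rw [hY2, zero_mul] at h1
  exact h1

/-- the logarithm is diagonalisable with real eigenvalues at the places -/
lemma diag_at (σ : K →+* ℂ) {g : (i : I) → Module.End ℂ (κ i → ℂ)} {Y : GG κ}
    (hY : IsInv n P α Y)
    (hl : ∀ (μ : ℂ), ∀ v ∈ (g i).maxGenEigenspace μ,
      Y.1 i v = ((Real.log ‖μ‖ : ℝ) : ℂ) • v) (v : Fin m → ℂ) :
    v ∈ Submodule.span ℂ {w | ∃ r : ℝ, ent F σ (Y.1 i) *ᵥ w = (r : ℂ) • w} := by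
  have hc := F.comm_of_isInv n P α i hY
  have h1 : (⊤ : Submodule ℂ (κ i → ℂ)) ≤ (Submodule.span ℂ
      {w | ∃ r : ℝ, ent F σ (Y.1 i) *ᵥ w = (r : ℂ) • w}).comap (cv F σ) := by
    rw [← Module.End.iSup_maxGenEigenspace_eq_top (g i)]
    refine iSup_le fun μ x hx => ?_
    refine Submodule.subset_span ⟨Real.log ‖μ‖, ?_⟩
    rw [← cv_act F hc, hl μ x hx, map_smul]
  have h2 := h1 (Submodule.mem_top : pv F σ v ∈ ⊤)
  rw [Submodule.mem_comap, cv_pv] at h2
  exact h2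

/-- a skew diagonalisable matrix with real eigenvalues vanishes if the form is definite -/
lemma zero_of_definite {H B : Matrix (Fin m) (Fin m) ℂ} (hD : Definite H)
    (hB : ∀ u v, hf H (B *ᵥ u) v + hf H u (B *ᵥ v) = 0)
    (hdiag : ∀ v : Fin m → ℂ, v ∈ Submodule.span ℂ {w | ∃ r : ℝ, B *ᵥ w = (r : ℂ) • w}) :
    B = 0 := by
  have h1 : ∀ w, (∃ r : ℝ, B *ᵥ w = (r : ℂ) • w) → B *ᵥ w = 0 := by
    rintro w ⟨r, hr⟩
    by_cases hw : w = 0
    · rw [hw, Matrix.mulVec_zero]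
    have h2 := hB w w
    rw [hr, hf_smul_left, hf_smul_right, Complex.conj_ofReal, ← two_mul] at h2
    have h3 : hf H w w ≠ 0 := by
      intro h4
      rcases hD.2 with h5 | h5
      · have h6 := h5 w hw
        rw [h4] at h6
        exact lt_irrefl _ h6
      · have h6 := h5 w hw
        rw [h4] at h6
        exact lt_irrefl _ h6
    have h4 : (r : ℂ) = 0 :=
      (mul_eq_zero.mp ((mul_eq_zero.mp h2).resolve_left two_ne_zero)).resolve_right h3
    rw [hr, h4, zero_smul]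
  apply Matrix.toLin'.injective
  apply LinearMap.ext
  intro v
  rw [map_zero, LinearMap.zero_apply, Matrix.toLin'_apply]
  have hv := hdiag v
  induction hv using Submodule.span_induction with
  | mem x hx => exact h1 x hx
  | zero => exact Matrix.mulVec_zero _
  | add x y _ _ hx hy => rw [Matrix.mulVec_add, hx, hy, add_zero]
  | smul a x _ hx => rw [Matrix.mulVec_smul, hx, smul_zero]

/-- the hyperbolic element -/
theorem exists_hyper (hm : 2 ≤ m) (σ₀ : K →+* ℂ)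
    (hirr : ∀ W : Submodule ℂ (κ i → ℂ), W ≤ Submodule.span ℂ (Set.range (F.e σ₀)) →
      (∀ g, IsGrp n P α g → ∀ v ∈ W, g i v ∈ W) →
      W = ⊥ ∨ W = Submodule.span ℂ (Set.range (F.e σ₀)))
    (hL : Lorentz (HG F σ₀))
    (hD : ∀ τ, τ ≠ σ₀ → τ ≠ ComplexEmbedding.conjugate σ₀ → Definite (HG F τ)) :
    ∃ Y : GG κ, IsInv n P α Y ∧ Y.2 = 0 ∧ ent F σ₀ (Y.1 i) ≠ 0 ∧
      (∀ u v, hf (HG F σ₀) (ent F σ₀ (Y.1 i) *ᵥ u) v +
        hf (HG F σ₀) u (ent F σ₀ (Y.1 i) *ᵥ v) = 0) ∧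
      (∀ v : Fin m → ℂ, v ∈ Submodule.span ℂ
        {w | ∃ r : ℝ, ent F σ₀ (Y.1 i) *ᵥ w = (r : ℂ) • w}) ∧
      ∀ τ, τ ≠ σ₀ → τ ≠ ComplexEmbedding.conjugate σ₀ → ent F τ (Y.1 i) = 0 := by
  obtain ⟨M, hM, μ, v, hv0, hv, hμ⟩ := Helper20.Ball.M3 (HG F σ₀) hL.1 (hL.exists_pos hm)
    (hL.2.imp fun _ h => h.1) (grpAt n P α i F σ₀) (grpAt_inv n P α i F σ₀)
    (grpAt_form n P α i F σ₀) (grpAt_irr n P α i F σ₀ hirr)
  obtain ⟨g, hg, rfl⟩ := hM
  obtain ⟨Y, hY, hY2, hr, hl⟩ := Helper65.Ball.M1 n P α g hg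
  refine ⟨Y, hY, hY2, ?_, skew_at n P α i F σ₀ hY hY2 (hr i), diag_at n P α i F σ₀ hY (hl i), ?_⟩
  · intro h0
    have h1 : g i (pv F σ₀ v) = μ • pv F σ₀ v := by
      rw [act_pv F (hg.commF F), hv, map_smul]
    have h2 : pv F σ₀ v ∈ (g i).maxGenEigenspace μ := by
      rw [Module.End.mem_maxGenEigenspace]
      refine ⟨1, ?_⟩
      rw [pow_one, LinearMap.sub_apply, LinearMap.smul_apply, Module.End.one_apply, h1, sub_self]
    have h3 := hl i μ _ h2
    rw [act_pv F (F.comm_of_isInv n P α i hY), h0, Matrix.zero_mulVec, map_zero] at h3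
    rcases smul_eq_zero.mp h3.symm with h4 | h4
    · have h5 : Real.log ‖μ‖ = 0 := by exact_mod_cast h4
      rcases Real.log_eq_zero.mp h5 with h6 | h6 | h6
      · have h7 : μ = 0 := norm_eq_zero.mp h6
        rw [h7, zero_smul] at h1
        have h8 := hg.injective n P α i (h1.trans (map_zero _).symm)
        exact hv0 (pv_injective F σ₀ (h8.trans (map_zero _).symm))
      · exact hμ h6
      · have := norm_nonneg μ
        linarith
    · exact hv0 (pv_injective F σ₀ (h4.trans (map_zero _).symm))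
  · intro τ h1 h2
    exact zero_of_definite (hD τ h1 h2) (skew_at n P α i F τ hY hY2 (hr i))
      (diag_at n P α i F τ hY (hl i))

end family

end Pool.Agent.Ball
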