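import Pool.Agent.Helper8.B.Defs
import Pool.Agent.Helper8.D.Setup
import Pool.Agent.Helper7.U.FT
import Pool.Agent.Helper28.GPC.TwistU

/-!
The Hermitian form at a place of a factor of arbitrary rank.
-/

open scoped ComplexConjugate

namespace Pool.Agent.Ball

open Module Matrix NumberField Pool.Agent.Helper7
open Pool.Agent.Helper8.D (ent ent_apply ent_act ent_mul)

set_option linter.unusedSectionVars false

section place

variable {κ : Type} [Fintype κ] [DecidableEq κ] {ϖ : ℂ} {P : PData κ ϖ} {K : Type} [Field K]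
    [NumberField K] {m : ℕ} (F : UF P K m)

/-- the vector with given coordinates at a place -/
noncomputable def pv (σ : K →+* ℂ) : (Fin m → ℂ) →ₗ[ℂ] (κ → ℂ) :=
  Fintype.linearCombination ℂ (F.e σ)

lemma pv_apply (σ : K →+* ℂ) (u : Fin m → ℂ) : pv F σ u = ∑ a, u a • F.e σ a :=
  Fintype.linearCombination_apply ℂ _ u

/-- the coordinates at a place -/
noncomputable def cv (σ : K →+* ℂ) : (κ → ℂ) →ₗ[ℂ] (Fin m → ℂ) :=
  LinearMap.pi fun a => F.co σ a

lemma cv_apply (σ : K →+* ℂ) (x : κ → ℂ) (a : Fin m) : cv F σ x a = F.co σ a x := rfl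

lemma cv_pv (σ : K →+* ℂ) (u : Fin m → ℂ) : cv F σ (pv F σ u) = u := by
  classical
  funext a
  rw [cv_apply, pv_apply, map_sum, Finset.sum_eq_single a]
  · rw [map_smul, F.co_e, if_pos ⟨rfl, rfl⟩, smul_eq_mul, mul_one]
  · intro b _ hb
    rw [map_smul, F.co_e, if_neg (fun h => hb h.2.symm), smul_zero]
  · intro h; exact absurd (Finset.mem_univ _) h

lemma pv_injective (σ : K →+* ℂ) : Function.Injective (pv F σ) :=
  Function.LeftInverse.injective (cv_pv F σ)

lemma pv_cv (σ : K →+* ℂ) (x : κ → ℂ) : pv F σ (cv F σ x) = proj F.ρ σ x := by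
  rw [pv_apply, F.proj_eq]
  rfl

lemma cv_act {X : Module.End ℂ (κ → ℂ)} (hX : F.Comm X) (σ : K →+* ℂ) (x : κ → ℂ) :
    cv F σ (X x) = ent F σ X *ᵥ cv F σ x := by
  funext a
  rw [cv_apply, hX.co_act σ a x]
  rfl

lemma act_pv {X : Module.End ℂ (κ → ℂ)} (hX : F.Comm X) (σ : K →+* ℂ) (u : Fin m → ℂ) :
    X (pv F σ u) = pv F σ (ent F σ X *ᵥ u) := by
  rw [pv_apply, pv_apply, map_sum]
  simp only [map_smul, ent_act F σ X hX, Finset.smul_sum, smul_smul]
  rw [Finset.sum_comm]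
  refine Finset.sum_congr rfl fun a _ => ?_
  rw [← Finset.sum_smul]
  congr 1
  rw [Matrix.mulVec, dotProduct]
  exact Finset.sum_congr rfl fun b _ => mul_comm _ _

lemma cB_e (σ : K →+* ℂ) (a : Fin m) : cB P (F.e σ a) = F.e (ComplexEmbedding.conjugate σ) a := by
  rw [F.e_eq, F.e_eq, cB_proj P F.ρ (fun x v hv => (F.hρ x).rat v hv), cB_of_mem P _ (F.lam_rat a)]

lemma cB_pv (σ : K →+* ℂ) (u : Fin m → ℂ) :
    cB P (pv F σ u) = ∑ a, conj (u a) • F.e (ComplexEmbedding.conjugate σ) a := by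
  rw [pv_apply, cB_sum]
  refine Finset.sum_congr rfl fun a _ => ?_
  rw [cB_smul, cB_e]

lemma hf_eq (σ : K →+* ℂ) (u v : Fin m → ℂ) :
    P.ψ (cB P (pv F σ u)) (pv F σ v) = hf (HG F σ) u v := by
  rw [cB_pv, pv_apply, map_sum P.ψ, LinearMap.sum_apply, hf, dotProduct]
  refine Finset.sum_congr rfl fun a _ => ?_
  rw [map_smul, LinearMap.smul_apply, map_sum, smul_eq_mul, Pi.star_apply, Matrix.mulVec,
    dotProduct]
  congr 1
  refine Finset.sum_congr rfl fun b _ => ?_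
  rw [map_smul, smul_eq_mul, mul_comm]
  rfl

end place

section lor

variable {m : ℕ}

lemma Lorentz.nondeg {H : Matrix (Fin m) (Fin m) ℂ} (hL : Lorentz H) (v : Fin m → ℂ)
    (hv : ∀ u, hf H u v = 0) : v = 0 := by
  obtain ⟨-, e, -, h2⟩ := hL
  by_contra h
  have h3 := h2 v (hv e) h
  rw [hv v] at h3
  exact lt_irrefl _ h3

lemma Lorentz.exists_pos {H : Matrix (Fin m) (Fin m) ℂ} (hL : Lorentz H) (hm : 2 ≤ m) :
    ∃ v, 0 < (hf H v v).re := by
  obtain ⟨-, e, -, h2⟩ := hL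
  let f : (Fin m → ℂ) →ₗ[ℂ] ℂ :=
    { toFun := fun v => hf H e v
      map_add' := fun v w => hf_add_right H e v w
      map_smul' := fun c v => hf_smul_right H c e v }
  have h3 : LinearMap.ker f ≠ ⊥ := by
    intro h
    have h4 := LinearMap.finrank_le_finrank_of_injective (LinearMap.ker_eq_bot.mp h)
    rw [finrank_fin_fun, finrank_self] at h4
    omega
  obtain ⟨v, hv, hv0⟩ := Submodule.exists_mem_ne_zero_of_ne_bot h3
  exact ⟨v, h2 v hv hv0⟩

/-- two matrices with the same sesquilinear form are equal -/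
lemma eq_of_hf {H H' : Matrix (Fin m) (Fin m) ℂ} (h : ∀ u v, hf H u v = hf H' u v) : H = H' := by
  ext a b
  have h1 := h (Pi.single a 1) (Pi.single b 1)
  have h2 : ∀ M : Matrix (Fin m) (Fin m) ℂ, hf M (Pi.single a 1) (Pi.single b 1) = M a b := by
    intro M
    rw [hf, Matrix.mulVec_single_one, ← Pi.single_star, star_one, single_one_dotProduct]
    rfl
  rw [h2, h2] at h1
  exact h1

lemma hf_conjT (H g : Matrix (Fin m) (Fin m) ℂ) (u v : Fin m → ℂ) :
    hf (gᴴ * H * g) u v = hf H (g *ᵥ u) (g *ᵥ v) := by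
  rw [hf, hf, Matrix.star_mulVec, ← Matrix.mulVec_mulVec, ← Matrix.mulVec_mulVec,
    Matrix.dotProduct_mulVec (star u) gᴴ]

end lor

end Pool.Agent.Ball
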