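import Pool.Agent.Helper8.B.Hyper
import Pool.Agent.Helper98.Ball.M2
import Pool.Agent.Helper84.AutC

/-!
The Lie algebra of symmetries at a place, its ideal of concentrated elements, and twists.
-/

open scoped ComplexConjugate

namespace Pool.Agent.Ball

open Module Matrix NumberField Pool.Agent.Helper7
open Pool.Agent.Helper8.D (ent ent_apply ent_act ent_mul)
open Pool.Agent.Helper28.GPC (tw isInv_tw entry_tw tw_star tw_snd)

set_option linter.unusedSectionVars false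

section family

variable {I : Type} [Fintype I] [DecidableEq I] (n : I → ℕ)
  {κ : I → Type} [∀ i, Fintype (κ i)] [∀ i, DecidableEq (κ i)] {ϖ : ℂ}
  (P : ∀ i, PData (κ i) ϖ)
  {k : ℕ} (α : MultilinearMap ℂ (fun _ : Fin (2 * k) => HW κ n) ℂ)
  (i : I) {K : Type} [Field K] [NumberField K] {m : ℕ} (F : UF (P i) K m)

/-- the Lie algebra at a place -/
noncomputable def gAt (σ : K →+* ℂ) : Submodule ℂ (Matrix (Fin m) (Fin m) ℂ) where
  carrier := {M | ∃ X, IsInv n P α X ∧ X.2 = 0 ∧ ent F σ (X.1 i) = M}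
  zero_mem' := ⟨0, IsInv.zero n P α, rfl, by
    show ent F σ (0 : Module.End ℂ (κ i → ℂ)) = 0
    rw [map_zero]⟩
  add_mem' := by
    rintro _ _ ⟨X, hX, h2, rfl⟩ ⟨Y, hY, h3, rfl⟩
    refine ⟨X + Y, hX.add n P α hY, ?_, ?_⟩
    · show X.2 + Y.2 = 0
      rw [h2, h3, add_zero]
    · show ent F σ (X.1 i + Y.1 i) = _
      rw [map_add]
  smul_mem' := by
    rintro c _ ⟨X, hX, h2, rfl⟩
    refine ⟨c • X, hX.smul n P α c, ?_, ?_⟩
    · show c • X.2 = 0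
      rw [h2, smul_zero]
    · show ent F σ (c • X.1 i) = _
      rw [map_smul]

/-- the ideal of elements concentrated at a place -/
noncomputable def cAt (σ : K →+* ℂ) : Submodule ℂ (Matrix (Fin m) (Fin m) ℂ) where
  carrier := {M | ∃ X, IsInv n P α X ∧ X.2 = 0 ∧ ent F σ (X.1 i) = M ∧
    ∀ τ, τ ≠ σ → τ ≠ ComplexEmbedding.conjugate σ → ent F τ (X.1 i) = 0}
  zero_mem' := ⟨0, IsInv.zero n P α, rfl, by
    show ent F σ (0 : Module.End ℂ (κ i → ℂ)) = 0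
    rw [map_zero], fun τ _ _ => by
    show ent F τ (0 : Module.End ℂ (κ i → ℂ)) = 0
    rw [map_zero]⟩
  add_mem' := by
    rintro _ _ ⟨X, hX, h2, rfl, h4⟩ ⟨Y, hY, h3, rfl, h5⟩
    refine ⟨X + Y, hX.add n P α hY, ?_, ?_, fun τ h6 h7 => ?_⟩
    · show X.2 + Y.2 = 0
      rw [h2, h3, add_zero]
    · show ent F σ (X.1 i + Y.1 i) = _
      rw [map_add]
    · show ent F τ (X.1 i + Y.1 i) = 0
      rw [map_add, h4 τ h6 h7, h5 τ h6 h7, add_zero]
  smul_mem' := by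
    rintro c _ ⟨X, hX, h2, rfl, h4⟩
    refine ⟨c • X, hX.smul n P α c, ?_, ?_, fun τ h6 h7 => ?_⟩
    · show c • X.2 = 0
      rw [h2, smul_zero]
    · show ent F σ (c • X.1 i) = _
      rw [map_smul]
    · show ent F τ (c • X.1 i) = 0
      rw [map_smul, h4 τ h6 h7, smul_zero]

lemma ent_br (σ : K →+* ℂ) {X Y : GG κ} (hX : IsInv n P α X) (hY : IsInv n P α Y) :
    ent F σ ((X * Y - Y * X).1 i) = ent F σ (X.1 i) * ent F σ (Y.1 i) -
      ent F σ (Y.1 i) * ent F σ (X.1 i) := by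
  show ent F σ (X.1 i * Y.1 i - Y.1 i * X.1 i) = _
  rw [map_sub, ent_mul F σ _ _ (F.comm_of_isInv n P α i hY),
    ent_mul F σ _ _ (F.comm_of_isInv n P α i hX)]

lemma gAt_br (σ : K →+* ℂ) : ∀ A ∈ gAt n P α i F σ, ∀ B ∈ gAt n P α i F σ,
    A * B - B * A ∈ gAt n P α i F σ := by
  rintro _ ⟨X, hX, h2, rfl⟩ _ ⟨Y, hY, h3, rfl⟩
  refine ⟨X * Y - Y * X, hX.bracket n P α hY, ?_, ent_br n P α i F σ hX hY⟩
  show X.2 * Y.2 - Y.2 * X.2 = 0
  ring

lemma cAt_br (σ : K →+* ℂ) : ∀ A ∈ gAt n P α i F σ, ∀ B ∈ cAt n P α i F σ,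
    A * B - B * A ∈ cAt n P α i F σ := by
  rintro _ ⟨X, hX, h2, rfl⟩ _ ⟨Y, hY, h3, rfl, h4⟩
  refine ⟨X * Y - Y * X, hX.bracket n P α hY, ?_, ent_br n P α i F σ hX hY, fun τ h6 h7 => ?_⟩
  · show X.2 * Y.2 - Y.2 * X.2 = 0
    ring
  · rw [ent_br n P α i F τ hX hY, h4 τ h6 h7, mul_zero, zero_mul, sub_zero]

lemma cAt_le (σ : K →+* ℂ) : cAt n P α i F σ ≤ gAt n P α i F σ := by
  rintro _ ⟨X, hX, h2, rfl, -⟩
  exact ⟨X, hX, h2, rfl⟩

variable (hϖ : ϖ ≠ 0)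
  (hB : ∀ v : Fin (2 * k) → HW κ n, (∀ r, IsRatP n P (v r)) → ∃ q : ℚ, α v = ϖ ^ k * q)
  (hA : ∀ v : Fin (2 * k) → HW κ n, (∀ r i m j, IsAlgebraic ℚ (v r i m j)) →
      IsAlgebraic ℚ (α v))

include hϖ hB in
/-- adjoints -/
lemma gAt_adj (σ : K →+* ℂ) : ∀ A ∈ gAt n P α i F σ, ∃ A' ∈ gAt n P α i F σ,
    ∀ u v, hf (HG F σ) (A' *ᵥ u) v = hf (HG F σ) u (A *ᵥ v) := by
  rintro _ ⟨X, hX, h2, rfl⟩
  obtain ⟨Y, hY⟩ : ∃ Y, Y = tw P (starRingAut : ℂ ≃+* ℂ) X := ⟨_, rfl⟩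
  have hYi : IsInv n P α Y := by rw [hY]; exact isInv_tw n P α hϖ hB _ X hX
  have hYs : ∀ v, Y.1 i v = cB (P i) (X.1 i (cB (P i) v)) := by
    intro v
    rw [hY]
    exact tw_star P X i v
  have hY2 : Y.2 = 0 := by
    rw [hY, tw_snd, h2, map_zero]
  refine ⟨ent F σ (((-1 : ℂ) • Y).1 i), ⟨_, hYi.smul n P α (-1), ?_, rfl⟩, ?_⟩
  · show (-1 : ℂ) • Y.2 = 0
    rw [hY2, smul_zero]
  · intro u v
    have hc : F.Comm (((-1 : ℂ) • Y).1 i) := F.comm_of_isInv n P α i (hYi.smul n P α (-1))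
    rw [← hf_eq, ← hf_eq, ← act_pv F hc, ← act_pv F (F.comm_of_isInv n P α i hX)]
    show (P i).ψ (cB (P i) ((-1 : ℂ) • Y.1 i (pv F σ u))) (pv F σ v) = _
    rw [hYs, cB_smul, cB_cB, map_neg, map_one, map_smul, LinearMap.smul_apply, smul_eq_mul]
    have h1 := hX.pol i (cB (P i) (pv F σ u)) (pv F σ v)
    rw [h2, zero_mul] at h1
    linear_combination -h1

include hϖ hB hA in
/-- irreducibility -/
lemma gAt_irr (σ : K →+* ℂ) (U : Submodule ℂ (Fin m → ℂ))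
    (hU : ∀ A ∈ gAt n P α i F σ, ∀ v ∈ U, A *ᵥ v ∈ U) : U = ⊥ ∨ U = ⊤ := by
  have hrange : Submodule.span ℂ (Set.range (F.e σ)) = LinearMap.range (pv F σ) := by
    rw [pv, Fintype.range_linearCombination]
  rcases UF.irred_place n P α i F hϖ hB hA σ (U.map (pv F σ)) (by
    rw [hrange]
    exact LinearMap.map_le_range) (by
    rintro X hX _ ⟨u, hu, rfl⟩
    -- subtract a homothety
    obtain ⟨Z, hZ⟩ : ∃ Z : GG κ, Z = (fun i => (1 / 2 : ℂ) • (1 : Module.End ℂ (κ i → ℂ)), 1) :=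
      ⟨_, rfl⟩
    have hZi : IsInv n P α Z := by
      rw [hZ]
      exact Helper98.Ball.isInv_homothety n P α
    have h1 : IsInv n P α (X + (-X.2) • Z) := hX.add n P α (hZi.smul n P α _)
    have h2 : (X + (-X.2) • Z).2 = 0 := by
      show X.2 + (-X.2) * Z.2 = 0
      rw [hZ]
      ring
    have h3 : ∀ w, (X + (-X.2) • Z).1 i w = X.1 i w - (X.2 / 2) • w := by
      intro w
      show X.1 i w + (-X.2) • Z.1 i w = _
      rw [hZ]
      show X.1 i w + (-X.2) • (1 / 2 : ℂ) • w = _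
      module
    have h4 := hU _ ⟨_, h1, h2, rfl⟩ u hu
    have h5 := act_pv F (F.comm_of_isInv n P α i h1) σ u
    rw [h3] at h5
    have h6 : X.1 i (pv F σ u) = pv F σ (ent F σ ((X + (-X.2) • Z).1 i) *ᵥ u + (X.2 / 2) • u) := by
      rw [map_add, ← h5, map_smul]
      abel
    rw [h6]
    exact ⟨_, U.add_mem h4 (U.smul_mem _ hu), rfl⟩) with h | h
  · left
    rw [eq_bot_iff]
    intro u hu
    have h1 : pv F σ u ∈ U.map (pv F σ) := ⟨u, hu, rfl⟩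
    rw [h, Submodule.mem_bot] at h1
    exact pv_injective F σ (h1.trans (map_zero _).symm)
  · right
    rw [eq_top_iff]
    intro u _
    have h1 : pv F σ u ∈ U.map (pv F σ) := by
      rw [h, hrange]
      exact ⟨u, rfl⟩
    obtain ⟨w, hw, h2⟩ := h1
    rw [← pv_injective F σ h2]
    exact hw

lemma comp_conj (τ : ℂ ≃+* ℂ) (σ : K →+* ℂ) (F : UF (P i) K m) :
    (τ : ℂ →+* ℂ).comp (ComplexEmbedding.conjugate σ) =
      ComplexEmbedding.conjugate ((τ : ℂ →+* ℂ).comp σ) := by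
  ext x
  have h1 := F.hcc σ x
  have h2 := F.hcc ((τ : ℂ →+* ℂ).comp σ) x
  rw [ComplexEmbedding.conjugate_coe_eq]
  show τ (ComplexEmbedding.conjugate σ x) = _
  rw [ComplexEmbedding.conjugate_coe_eq, ← h1, ← h2]
  rfl

include hϖ hB in
/-- twists of concentrated elements -/
lemma cAt_tw (τ : ℂ ≃+* ℂ) (σ : K →+* ℂ) (A : Matrix (Fin m) (Fin m) ℂ)
    (hAc : A ∈ cAt n P α i F σ) : A.map τ ∈ cAt n P α i F ((τ : ℂ →+* ℂ).comp σ) := by
  obtain ⟨X, hX, h2, rfl, h4⟩ := hAc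
  have hent : ∀ σ : K →+* ℂ, ent F ((τ : ℂ →+* ℂ).comp σ) ((tw P τ X).1 i) =
      (ent F σ (X.1 i)).map τ := by
    intro σ
    ext a b
    exact entry_tw (K := fun _ => K) n P α hϖ hB τ X hX i F σ a b
  refine ⟨tw P τ X, isInv_tw n P α hϖ hB τ X hX, ?_, hent σ, fun ρ h5 h6 => ?_⟩
  · rw [tw_snd, h2, map_zero]
  · have h7 : ρ = (τ : ℂ →+* ℂ).comp ((τ.symm : ℂ →+* ℂ).comp ρ) := by
      ext x
      exact (τ.apply_symm_apply (ρ x)).symm
    rw [h7, hent, h4 _ ?_ ?_, Matrix.map_zero _ (map_zero τ)]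
    · intro h8
      apply h5
      rw [h7, h8]
    · intro h8
      apply h6
      rw [h7, h8, comp_conj P i τ σ F]

end family

end Pool.Agent.Ball
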