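import Pool.Agent.Helper8.B.Defs

/-!
The structure of a Lie algebra of operators on a Lorentzian space which contains the grading
operator, is stable under the adjoint and acts irreducibly.
-/

open scoped ComplexConjugate InnerProductSpace

namespace Pool.Agent.Ball

set_option linter.unusedSimpArgs false
set_option linter.unnecessarySeqFocus false

open Module

variable {l : ℕ}

/-- the Euclidean part -/
abbrev EW (l : ℕ) : Type := EuclideanSpace ℂ (Fin l)

lemma opY_apply (v u : EW l) (x : LV l) : opY v u x = (⟪u, x.2.1⟫_ℂ, x.2.2 • v, 0) := rfl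

lemma opZ_apply (v u : EW l) (x : LV l) : opZ v u x = (0, x.1 • v, ⟪u, x.2.1⟫_ℂ) := rfl

lemma opH_apply (x : LV l) : (opH : Module.End ℂ (LV l)) x = (x.1, 0, - x.2.2) := rfl

/-- the operator of degree two -/
noncomputable def opE : Module.End ℂ (LV l) where
  toFun x := (x.2.2, 0, 0)
  map_add' x y := by simp
  map_smul' c x := by simp

/-- the operator of degree minus two -/
noncomputable def opF : Module.End ℂ (LV l) where
  toFun x := (0, 0, x.1)
  map_add' x y := by simp
  map_smul' c x := by simp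

lemma opE_apply (x : LV l) : (opE : Module.End ℂ (LV l)) x = (x.2.2, 0, 0) := rfl

lemma opF_apply (x : LV l) : (opF : Module.End ℂ (LV l)) x = (0, 0, x.1) := rfl

lemma opY_add (v u v' u' : EW l) : opY (v + v') (u + u') = opY v u + opY v' u' := by
  refine LinearMap.ext fun x => ?_
  rw [LinearMap.add_apply, opY_apply, opY_apply, opY_apply]
  ext1
  · simp [inner_add_left]
  · ext1
    · simp
    · simp

lemma opY_smul (c : ℂ) (v u : EW l) : opY (c • v) (conj c • u) = c • opY v u := by
  refine LinearMap.ext fun x => ?_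
  rw [LinearMap.smul_apply, opY_apply, opY_apply]
  ext1
  · simp [mul_comm]
  · ext1
    · simp [smul_smul, mul_comm]
    · simp

lemma opZ_add (v u v' u' : EW l) : opZ (v + v') (u + u') = opZ v u + opZ v' u' := by
  refine LinearMap.ext fun x => ?_
  rw [LinearMap.add_apply, opZ_apply, opZ_apply, opZ_apply]
  ext1
  · simp
  · ext1
    · simp
    · simp [inner_add_left]

lemma opZ_smul (c : ℂ) (v u : EW l) : opZ (c • v) (conj c • u) = c • opZ v u := by
  refine LinearMap.ext fun x => ?_
  rw [LinearMap.smul_apply, opZ_apply, opZ_apply]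
  ext1
  · simp
  · ext1
    · simp [smul_smul, mul_comm]
    · simp [mul_comm]

/-- the bracket -/
noncomputable def br {V : Type*} [AddCommGroup V] [Module ℂ V] (X Y : Module.End ℂ V) :
    Module.End ℂ V := X * Y - Y * X

lemma br_apply {V : Type*} [AddCommGroup V] [Module ℂ V] (X Y : Module.End ℂ V) (x : V) :
    br X Y x = X (Y x) - Y (X x) := rfl

lemma br_YZY (v u w k y z : EW l) : br (br (opY v u) (opZ w k)) (opY y z) =
    opY (⟪k, y⟫_ℂ • v - ⟪u, y⟫_ℂ • w + ⟪k, v⟫_ℂ • y)
      (⟪w, u⟫_ℂ • z - ⟪v, z⟫_ℂ • k + ⟪w, z⟫_ℂ • u) := by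
  refine LinearMap.ext fun x => ?_
  simp only [br_apply, opY_apply, opZ_apply]
  ext1
  · simp only [inner_add_left, inner_sub_left, inner_smul_left, inner_conj_symm, Prod.fst_sub,
      Prod.snd_sub, inner_sub_right, inner_smul_right, map_mul, zero_smul, sub_zero, zero_sub]
    ring
  · ext1
    · simp only [inner_add_left, inner_sub_left, inner_smul_left, inner_conj_symm, Prod.fst_sub,
        Prod.snd_sub, inner_sub_right, inner_smul_right, map_mul, zero_smul, sub_zero, zero_sub]
      module
    · simp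

lemma br_ZYZ (v u w k y z : EW l) : br (br (opZ v u) (opY w k)) (opZ y z) =
    opZ (⟪k, y⟫_ℂ • v - ⟪u, y⟫_ℂ • w + ⟪k, v⟫_ℂ • y)
      (⟪w, u⟫_ℂ • z - ⟪v, z⟫_ℂ • k + ⟪w, z⟫_ℂ • u) := by
  refine LinearMap.ext fun x => ?_
  simp only [br_apply, opY_apply, opZ_apply]
  ext1
  · simp
  · ext1
    · simp only [inner_add_left, inner_sub_left, inner_smul_left, inner_conj_symm, Prod.fst_sub,
        Prod.snd_sub, inner_sub_right, inner_smul_right, map_mul, zero_smul, sub_zero, zero_sub]
      module
    · simp only [inner_add_left, inner_sub_left, inner_smul_left, inner_conj_symm, Prod.fst_sub,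
        Prod.snd_sub, inner_sub_right, inner_smul_right, map_mul, zero_smul, sub_zero, zero_sub]
      ring

lemma br_EZ (w k : EW l) : br opE (opZ w k) = opY (-w) k := by
  refine LinearMap.ext fun x => ?_
  simp only [br_apply, opY_apply, opZ_apply, opE_apply]
  ext1
  · simp
  · ext1
    · simp
    · simp

lemma br_FY (w k : EW l) : br opF (opY w k) = opZ (-w) k := by
  refine LinearMap.ext fun x => ?_
  simp only [br_apply, opY_apply, opZ_apply, opF_apply]
  ext1
  · simp
  · ext1
    · simp
    · simp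

lemma br_YY (v u v' u' : EW l) : br (opY v u) (opY v' u') =
    (⟪u, v'⟫_ℂ - ⟪u', v⟫_ℂ) • opE := by
  refine LinearMap.ext fun x => ?_
  simp only [br_apply, opY_apply, LinearMap.smul_apply, opE_apply]
  ext1
  · simp [inner_smul_right]; ring
  · ext1
    · simp
    · simp

lemma br_ZZ (v u v' u' : EW l) : br (opZ v u) (opZ v' u') =
    (⟪u, v'⟫_ℂ - ⟪u', v⟫_ℂ) • opF := by
  refine LinearMap.ext fun x => ?_
  simp only [br_apply, opZ_apply, LinearMap.smul_apply, opF_apply]
  ext1
  · simp
  · ext1
    · simp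
    · simp [inner_smul_right]; ring

lemma br_HY (v u : EW l) : br opH (opY v u) = opY v u := by
  refine LinearMap.ext fun x => ?_
  simp only [br_apply, opY_apply, opH_apply]
  ext1
  · simp
  · ext1
    · simp
    · simp

lemma br_HZ (v u : EW l) : br opH (opZ v u) = - opZ v u := by
  refine LinearMap.ext fun x => ?_
  simp only [br_apply, opZ_apply, opH_apply, LinearMap.neg_apply]
  ext1
  · simp
  · ext1
    · simp
    · simp

/-- the vector representing a linear form -/
noncomputable def riesz (f : EW l →ₗ[ℂ] ℂ) : EW l :=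
  (InnerProductSpace.toDual ℂ (EW l)).symm (LinearMap.toContinuousLinearMap f)

lemma inner_riesz (f : EW l →ₗ[ℂ] ℂ) (x : EW l) : ⟪riesz f, x⟫_ℂ = f x := by
  rw [riesz, InnerProductSpace.toDual_symm_apply]
  rfl

/-- embeddings of the pieces -/
noncomputable def iP : ℂ →ₗ[ℂ] LV l := LinearMap.inl ℂ ℂ (EW l × ℂ)
noncomputable def iW : EW l →ₗ[ℂ] LV l := (LinearMap.inr ℂ ℂ (EW l × ℂ)) ∘ₗ LinearMap.inl ℂ (EW l) ℂ
noncomputable def iM : ℂ →ₗ[ℂ] LV l := (LinearMap.inr ℂ ℂ (EW l × ℂ)) ∘ₗ LinearMap.inr ℂ (EW l) ℂ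
noncomputable def pP : LV l →ₗ[ℂ] ℂ := LinearMap.fst ℂ ℂ (EW l × ℂ)
noncomputable def pW : LV l →ₗ[ℂ] EW l := (LinearMap.fst ℂ (EW l) ℂ) ∘ₗ LinearMap.snd ℂ ℂ (EW l × ℂ)
noncomputable def pM : LV l →ₗ[ℂ] ℂ := (LinearMap.snd ℂ (EW l) ℂ) ∘ₗ LinearMap.snd ℂ ℂ (EW l × ℂ)

lemma iP_apply (a : ℂ) : (iP a : LV l) = (a, 0, 0) := rfl
lemma iW_apply (x : EW l) : iW x = (0, x, 0) := rfl
lemma iM_apply (a : ℂ) : (iM a : LV l) = (0, 0, a) := rfl
lemma pP_apply (x : LV l) : pP x = x.1 := rfl
lemma pW_apply (x : LV l) : pW x = x.2.1 := rfl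
lemma pM_apply (x : LV l) : pM x = x.2.2 := rfl

lemma decomp (x : LV l) : x = iP x.1 + iW x.2.1 + iM x.2.2 := by
  rw [iP_apply, iW_apply, iM_apply]
  ext1
  · simp
  · ext1
    · simp
    · simp

/-- components of an operator -/
noncomputable def vY (X : Module.End ℂ (LV l)) : EW l := pW (X (iM 1))
noncomputable def uY (X : Module.End ℂ (LV l)) : EW l := riesz (pP ∘ₗ X ∘ₗ iW)
noncomputable def vZ (X : Module.End ℂ (LV l)) : EW l := pW (X (iP 1))
noncomputable def uZ (X : Module.End ℂ (LV l)) : EW l := riesz (pM ∘ₗ X ∘ₗ iW)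

/-- the bracket with the grading operator -/
noncomputable def dH (X : Module.End ℂ (LV l)) : Module.End ℂ (LV l) := br opH X

lemma dH_P (X : Module.End ℂ (LV l)) (a : ℂ) :
    dH X (iP a) = (0, - (X (iP a)).2.1, - 2 * (X (iP a)).2.2) := by
  rw [dH, br_apply, opH_apply, opH_apply]
  have h : ((iP a : LV l).1, (0 : EW l), - (iP a : LV l).2.2) = iP a := by
    rw [iP_apply]; simp
  rw [h]
  ext1
  · simp
  · ext1
    · simp
    · simp <;> ring

lemma dH_W (X : Module.End ℂ (LV l)) (x : EW l) :
    dH X (iW x) = ((X (iW x)).1, 0, - (X (iW x)).2.2) := by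
  rw [dH, br_apply, opH_apply, opH_apply]
  have h : ((iW x : LV l).1, (0 : EW l), - (iW x : LV l).2.2) = 0 := by
    rw [iW_apply]; simp
  rw [h, map_zero, sub_zero]

lemma dH_M (X : Module.End ℂ (LV l)) (a : ℂ) :
    dH X (iM a) = (2 * (X (iM a)).1, (X (iM a)).2.1, 0) := by
  rw [dH, br_apply, opH_apply, opH_apply]
  have h : ((iM a : LV l).1, (0 : EW l), - (iM a : LV l).2.2) = - iM a := by
    rw [iM_apply]; simp
  rw [h, map_neg]
  ext1
  · simp <;> ring
  · ext1
    · simp
    · simp

lemma ext_LV {X Y : Module.End ℂ (LV l)} (h1 : ∀ a, X (iP a) = Y (iP a))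
    (h2 : ∀ x, X (iW x) = Y (iW x)) (h3 : ∀ a, X (iM a) = Y (iM a)) : X = Y := by
  refine LinearMap.ext fun x => ?_
  rw [decomp x, map_add, map_add, map_add, map_add, h1, h2, h3]

/-- the component of degree one -/
lemma compY (X : Module.End ℂ (LV l)) :
    (-1 / 6 : ℂ) • (dH (dH (dH (dH X))) + dH (dH (dH X)) - (4 : ℂ) • dH (dH X) -
      (4 : ℂ) • dH X) = opY (vY X) (uY X) := by
  apply ext_LV
  · intro a
    simp only [LinearMap.smul_apply, LinearMap.add_apply, LinearMap.sub_apply, dH_P, opY_apply]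
    rw [iP_apply]
    ext1
    · simp
    · ext1
      · simp <;> module
      · simp <;> ring
  · intro x
    simp only [LinearMap.smul_apply, LinearMap.add_apply, LinearMap.sub_apply, dH_W, opY_apply]
    have h : ⟪uY X, (iW x).2.1⟫_ℂ = (X (iW x)).1 := inner_riesz _ _
    rw [h, iW_apply]
    ext1
    · simp <;> ring
    · ext1
      · simp
      · simp
  · intro a
    simp only [LinearMap.smul_apply, LinearMap.add_apply, LinearMap.sub_apply, dH_M, opY_apply]
    have h : (X (iM a)).2.1 = a • vY X := by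
      have h1 : (iM a : LV l) = a • iM 1 := by rw [← map_smul, smul_eq_mul, mul_one]
      rw [h1, map_smul]; rfl
    rw [h, iM_apply]
    ext1
    · simp <;> ring
    · ext1
      · simp <;> module
      · simp

/-- the component of degree minus one -/
lemma compZ (X : Module.End ℂ (LV l)) :
    (-1 / 6 : ℂ) • (dH (dH (dH (dH X))) - dH (dH (dH X)) - (4 : ℂ) • dH (dH X) +
      (4 : ℂ) • dH X) = opZ (vZ X) (uZ X) := by
  apply ext_LV
  · intro a
    simp only [LinearMap.smul_apply, LinearMap.add_apply, LinearMap.sub_apply, dH_P, opZ_apply]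
    have h : (X (iP a)).2.1 = a • vZ X := by
      have h1 : (iP a : LV l) = a • iP 1 := by rw [← map_smul, smul_eq_mul, mul_one]
      rw [h1, map_smul]; rfl
    rw [h, iP_apply]
    ext1
    · simp
    · ext1
      · simp <;> module
      · simp <;> ring
  · intro x
    simp only [LinearMap.smul_apply, LinearMap.add_apply, LinearMap.sub_apply, dH_W, opZ_apply]
    have h : ⟪uZ X, (iW x).2.1⟫_ℂ = (X (iW x)).2.2 := inner_riesz _ _
    rw [h, iW_apply]
    ext1
    · simp
    · ext1
      · simp
      · simp <;> ring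
  · intro a
    simp only [LinearMap.smul_apply, LinearMap.add_apply, LinearMap.sub_apply, dH_M, opZ_apply]
    rw [iM_apply]
    ext1
    · simp <;> ring
    · ext1
      · simp <;> module
      · simp

/-- the component of degree two -/
lemma compE (X : Module.End ℂ (LV l)) :
    (1 / 24 : ℂ) • (dH (dH (dH (dH X))) + (2 : ℂ) • dH (dH (dH X)) - dH (dH X) -
      (2 : ℂ) • dH X) = (X (iM 1)).1 • opE := by
  apply ext_LV
  · intro a
    simp only [LinearMap.smul_apply, LinearMap.add_apply, LinearMap.sub_apply, dH_P, opE_apply]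
    rw [iP_apply]
    ext1
    · simp
    · ext1
      · simp <;> module
      · simp <;> ring
  · intro x
    simp only [LinearMap.smul_apply, LinearMap.add_apply, LinearMap.sub_apply, dH_W, opE_apply]
    rw [iW_apply]
    ext1
    · simp <;> ring
    · ext1
      · simp
      · simp <;> ring
  · intro a
    simp only [LinearMap.smul_apply, LinearMap.add_apply, LinearMap.sub_apply, dH_M, opE_apply]
    have h : (X (iM a)).1 = a * (X (iM 1)).1 := by
      have h1 : (iM a : LV l) = a • iM 1 := by rw [← map_smul, smul_eq_mul, mul_one]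
      rw [h1, map_smul]; rfl
    rw [h, iM_apply]
    ext1
    · simp [iM_apply] <;> ring
    · ext1
      · simp <;> module
      · simp

/-- the component of degree minus two -/
lemma compF (X : Module.End ℂ (LV l)) :
    (1 / 24 : ℂ) • (dH (dH (dH (dH X))) - (2 : ℂ) • dH (dH (dH X)) - dH (dH X) +
      (2 : ℂ) • dH X) = (X (iP 1)).2.2 • opF := by
  apply ext_LV
  · intro a
    simp only [LinearMap.smul_apply, LinearMap.add_apply, LinearMap.sub_apply, dH_P, opF_apply]
    have h : (X (iP a)).2.2 = a * (X (iP 1)).2.2 := by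
      have h1 : (iP a : LV l) = a • iP 1 := by rw [← map_smul, smul_eq_mul, mul_one]
      rw [h1, map_smul]; rfl
    rw [h, iP_apply]
    ext1
    · simp
    · ext1
      · simp <;> module
      · simp <;> ring
  · intro x
    simp only [LinearMap.smul_apply, LinearMap.add_apply, LinearMap.sub_apply, dH_W, opF_apply]
    rw [iW_apply]
    ext1
    · simp <;> ring
    · ext1
      · simp
      · simp <;> ring
  · intro a
    simp only [LinearMap.smul_apply, LinearMap.add_apply, LinearMap.sub_apply, dH_M, opF_apply]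
    rw [iM_apply]
    ext1
    · simp <;> ring
    · ext1
      · simp <;> module
      · simp

end Pool.Agent.Ball
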