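import Pool.Agent.Helper8.B.Struct

/-!
The structure of a Lie algebra of operators on a Lorentzian space which contains the grading
operator, is stable under the adjoint and acts irreducibly: the theorem.
-/

open scoped ComplexConjugate InnerProductSpace

namespace Pool.Agent.Ball

open Module

variable {l : ℕ}

lemma hm_apply (x y : LV l) : hm x y = conj x.1 * y.2.2 + conj x.2.2 * y.1 + ⟪x.2.1, y.2.1⟫_ℂ :=
  rfl

lemma hm_nondeg (z : LV l) (h : ∀ x, hm z x = 0) : z = 0 := by
  have h1 : z.1 = 0 := by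
    have h2 := h (0, 0, 1)
    rw [hm_apply] at h2
    simpa using h2
  have h3 : z.2.2 = 0 := by
    have h2 := h (1, 0, 0)
    rw [hm_apply] at h2
    simpa using h2
  have h4 : z.2.1 = 0 := by
    have h2 := h (0, z.2.1, 0)
    rw [hm_apply] at h2
    simpa using h2
  ext1
  · exact h1
  · ext1
    · exact h4
    · exact h3

lemma hm_sub_left (z w x : LV l) : hm (z - w) x = hm z x - hm w x := by
  simp only [hm_apply, Prod.fst_sub, Prod.snd_sub, map_sub, inner_sub_left]
  ring

section

variable (g c : Submodule ℂ (Module.End ℂ (LV l)))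
    (hg : ∀ X ∈ g, ∀ Y ∈ g, X * Y - Y * X ∈ g) (hcg : c ≤ g)
    (hc : ∀ X ∈ g, ∀ Y ∈ c, X * Y - Y * X ∈ c) (hH : opH ∈ c)
    (hadj : ∀ X ∈ g, ∃ X' ∈ g, ∀ u v, hm (X' u) v = hm u (X v))
    (hirr : ∀ U : Submodule ℂ (LV l), (∀ X ∈ g, ∀ v ∈ U, X v ∈ U) → U = ⊥ ∨ U = ⊤)

include hg in
lemma br_mem {X Y : Module.End ℂ (LV l)} (hX : X ∈ g) (hY : Y ∈ g) : br X Y ∈ g := hg X hX Y hY

include hg hcg hH in
lemma dH_mem {X : Module.End ℂ (LV l)} (hX : X ∈ g) : dH X ∈ g := hg _ (hcg hH) _ hX

include hg hcg hH in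
lemma opY_mem_of {X : Module.End ℂ (LV l)} (hX : X ∈ g) : opY (vY X) (uY X) ∈ g := by
  have h1 := dH_mem g c hg hcg hH hX
  have h2 := dH_mem g c hg hcg hH h1
  have h3 := dH_mem g c hg hcg hH h2
  have h4 := dH_mem g c hg hcg hH h3
  rw [← compY]
  exact g.smul_mem _ (g.sub_mem (g.sub_mem (g.add_mem h4 h3) (g.smul_mem _ h2)) (g.smul_mem _ h1))

include hg hcg hH in
lemma opZ_mem_of {X : Module.End ℂ (LV l)} (hX : X ∈ g) : opZ (vZ X) (uZ X) ∈ g := by
  have h1 := dH_mem g c hg hcg hH hX
  have h2 := dH_mem g c hg hcg hH h1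
  have h3 := dH_mem g c hg hcg hH h2
  have h4 := dH_mem g c hg hcg hH h3
  rw [← compZ]
  exact g.smul_mem _ (g.add_mem (g.sub_mem (g.sub_mem h4 h3) (g.smul_mem _ h2)) (g.smul_mem _ h1))

include hg hcg hH in
lemma opE_mem_of {X : Module.End ℂ (LV l)} (hX : X ∈ g) : (X (iM 1)).1 • opE ∈ g := by
  have h1 := dH_mem g c hg hcg hH hX
  have h2 := dH_mem g c hg hcg hH h1
  have h3 := dH_mem g c hg hcg hH h2
  have h4 := dH_mem g c hg hcg hH h3
  rw [← compE]
  exact g.smul_mem _ (g.sub_mem (g.sub_mem (g.add_mem h4 (g.smul_mem _ h3)) h2) (g.smul_mem _ h1))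

include hg hcg hH in
lemma opF_mem_of {X : Module.End ℂ (LV l)} (hX : X ∈ g) : (X (iP 1)).2.2 • opF ∈ g := by
  have h1 := dH_mem g c hg hcg hH hX
  have h2 := dH_mem g c hg hcg hH h1
  have h3 := dH_mem g c hg hcg hH h2
  have h4 := dH_mem g c hg hcg hH h3
  rw [← compF]
  exact g.smul_mem _ (g.add_mem (g.sub_mem (g.sub_mem h4 (g.smul_mem _ h3)) h2) (g.smul_mem _ h1))

include hadj in
lemma opY_swap {v u : EW l} (h : opY v u ∈ g) : opY u v ∈ g := by
  obtain ⟨X', hX', h1⟩ := hadj _ h
  have h2 : X' = opY u v := by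
    refine LinearMap.ext fun y => ?_
    rw [← sub_eq_zero]
    refine hm_nondeg _ fun x => ?_
    rw [hm_sub_left, h1, hm_apply, hm_apply, opY_apply, opY_apply]
    simp only [inner_smul_left, inner_smul_right, map_zero, zero_mul, mul_zero, zero_add, add_zero,
      inner_conj_symm]
    ring
  rw [← h2]
  exact hX'

include hadj in
lemma opZ_swap {v u : EW l} (h : opZ v u ∈ g) : opZ u v ∈ g := by
  obtain ⟨X', hX', h1⟩ := hadj _ h
  have h2 : X' = opZ u v := by
    refine LinearMap.ext fun y => ?_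
    rw [← sub_eq_zero]
    refine hm_nondeg _ fun x => ?_
    rw [hm_sub_left, h1, hm_apply, hm_apply, opZ_apply, opZ_apply]
    simp only [inner_smul_left, inner_smul_right, map_zero, zero_mul, mul_zero, zero_add, add_zero,
      inner_conj_symm]
    ring
  rw [← h2]
  exact hX'

lemma opY_smul_mem {v u : EW l} (a : ℂ) (h : opY v u ∈ g) : opY (a • v) (conj a • u) ∈ g := by
  rw [opY_smul]; exact g.smul_mem _ h

lemma opZ_smul_mem {v u : EW l} (a : ℂ) (h : opZ v u ∈ g) : opZ (a • v) (conj a • u) ∈ g := by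
  rw [opZ_smul]; exact g.smul_mem _ h

/-- the real form of the piece of degree one -/
def RY : Submodule ℝ (EW l) where
  carrier := {s | opY s s ∈ g}
  zero_mem' := by
    have h : (opY 0 0 : Module.End ℂ (LV l)) = 0 := by
      have := opY_smul 0 (0 : EW l) 0
      rw [zero_smul, smul_zero, zero_smul] at this
      exact this
    show opY 0 0 ∈ g
    rw [h]; exact g.zero_mem
  add_mem' := by
    intro s t hs ht
    show opY (s + t) (s + t) ∈ g
    rw [opY_add]
    exact g.add_mem hs ht
  smul_mem' := by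
    intro r s hs
    show opY (r • s) (r • s) ∈ g
    have h := opY_smul_mem g (r : ℂ) hs
    rw [Complex.conj_ofReal] at h
    exact h

/-- the real form of the piece of degree minus one -/
def RZ : Submodule ℝ (EW l) where
  carrier := {s | opZ s s ∈ g}
  zero_mem' := by
    have h : (opZ 0 0 : Module.End ℂ (LV l)) = 0 := by
      have := opZ_smul 0 (0 : EW l) 0
      rw [zero_smul, smul_zero, zero_smul] at this
      exact this
    show opZ 0 0 ∈ g
    rw [h]; exact g.zero_mem
  add_mem' := by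
    intro s t hs ht
    show opZ (s + t) (s + t) ∈ g
    rw [opZ_add]
    exact g.add_mem hs ht
  smul_mem' := by
    intro r s hs
    show opZ (r • s) (r • s) ∈ g
    have h := opZ_smul_mem g (r : ℂ) hs
    rw [Complex.conj_ofReal] at h
    exact h

lemma mem_RY (s : EW l) : s ∈ RY g ↔ opY s s ∈ g := Iff.rfl

lemma mem_RZ (s : EW l) : s ∈ RZ g ↔ opZ s s ∈ g := Iff.rfl

include hadj in
lemma RY_of {v u : EW l} (h : opY v u ∈ g) : v + u ∈ RY g ∧ Complex.I • (v - u) ∈ RY g := by
  have h1 := opY_swap g hadj h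
  constructor
  · rw [mem_RY]
    have h2 := g.add_mem h h1
    rw [← opY_add, add_comm u v] at h2
    exact h2
  · rw [mem_RY]
    have h2 := g.add_mem (opY_smul_mem g Complex.I h) (opY_smul_mem g (-Complex.I) h1)
    rw [← opY_add, map_neg, Complex.conj_I, neg_neg] at h2
    have h3 : Complex.I • v + -Complex.I • u = Complex.I • (v - u) := by module
    have h4 : -Complex.I • u + Complex.I • v = Complex.I • (v - u) := by module
    rw [h3, h4] at h2
    exact h2

include hadj in
lemma RZ_of {v u : EW l} (h : opZ v u ∈ g) : v + u ∈ RZ g ∧ Complex.I • (v - u) ∈ RZ g := by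
  have h1 := opZ_swap g hadj h
  constructor
  · rw [mem_RZ]
    have h2 := g.add_mem h h1
    rw [← opZ_add, add_comm u v] at h2
    exact h2
  · rw [mem_RZ]
    have h2 := g.add_mem (opZ_smul_mem g Complex.I h) (opZ_smul_mem g (-Complex.I) h1)
    rw [← opZ_add, map_neg, Complex.conj_I, neg_neg] at h2
    have h3 : Complex.I • v + -Complex.I • u = Complex.I • (v - u) := by module
    have h4 : -Complex.I • u + Complex.I • v = Complex.I • (v - u) := by module
    rw [h3, h4] at h2
    exact h2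

/-- the complex span of a real subspace -/
def cs (R : Submodule ℝ (EW l)) : Submodule ℂ (EW l) := Submodule.span ℂ (R : Set (EW l))

include hadj in
lemma cs_of {v u : EW l} (h : opY v u ∈ g) : v ∈ cs (RY g) := by
  obtain ⟨h1, h2⟩ := RY_of g hadj h
  have h3 : v = (1 / 2 : ℂ) • (v + u) + (-Complex.I / 2 : ℂ) • (Complex.I • (v - u)) := by
    rw [smul_smul]
    have e : -Complex.I / 2 * Complex.I = 1 / 2 := by
      rw [div_mul_eq_mul_div, neg_mul, Complex.I_mul_I, neg_neg]
    rw [e]
    module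
  rw [h3]
  exact Submodule.add_mem _ (Submodule.smul_mem _ _ (Submodule.subset_span h1))
    (Submodule.smul_mem _ _ (Submodule.subset_span h2))

include hadj in
lemma cs_of' {v u : EW l} (h : opZ v u ∈ g) : v ∈ cs (RZ g) := by
  obtain ⟨h1, h2⟩ := RZ_of g hadj h
  have h3 : v = (1 / 2 : ℂ) • (v + u) + (-Complex.I / 2 : ℂ) • (Complex.I • (v - u)) := by
    rw [smul_smul]
    have e : -Complex.I / 2 * Complex.I = 1 / 2 := by
      rw [div_mul_eq_mul_div, neg_mul, Complex.I_mul_I, neg_neg]
    rw [e]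
    module
  rw [h3]
  exact Submodule.add_mem _ (Submodule.smul_mem _ _ (Submodule.subset_span h1))
    (Submodule.smul_mem _ _ (Submodule.subset_span h2))

include hadj in
lemma zero_of_RY (h0 : RY g = ⊥) {v u : EW l} (h : opY v u ∈ g) : v = 0 := by
  have h1 := cs_of g hadj h
  rw [cs, h0] at h1
  have h2 : ((⊥ : Submodule ℝ (EW l)) : Set (EW l)) = {0} := rfl
  rw [h2, Submodule.span_zero_singleton, Submodule.mem_bot] at h1
  exact h1

include hadj in
lemma zero_of_RZ (h0 : RZ g = ⊥) {v u : EW l} (h : opZ v u ∈ g) : v = 0 := by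
  have h1 := cs_of' g hadj h
  rw [cs, h0] at h1
  have h2 : ((⊥ : Submodule ℝ (EW l)) : Set (EW l)) = {0} := rfl
  rw [h2, Submodule.span_zero_singleton, Submodule.mem_bot] at h1
  exact h1

/-- the value of an operator -/
lemma val (X : Module.End ℂ (LV l)) (a : ℂ) (x : EW l) (b : ℂ) :
    X (a, x, b) = a • X (iP 1) + X (iW x) + b • X (iM 1) := by
  conv_lhs => rw [decomp (a, x, b)]
  have h1 : (iP a : LV l) = a • iP 1 := by rw [← map_smul, smul_eq_mul, mul_one]
  have h2 : (iM b : LV l) = b • iM 1 := by rw [← map_smul, smul_eq_mul, mul_one]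
  rw [map_add, map_add]
  show X (iP a) + X (iW x) + X (iM b) = _
  rw [h1, h2, map_smul, map_smul]

end

end Pool.Agent.Ball
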