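import Pool.Agent.Helper8.B.Struct3

/-!
Ideals in a Lie algebra of operators on a Lorentzian space which contains the grading operator:
an ideal which is stable under the adjoint and contains an operator which is not a scalar
contains the grading operator.
-/

open scoped ComplexConjugate InnerProductSpace

namespace Pool.Agent.Ball

open Module

variable {l : ℕ}

lemma br_YZ_self (s : EW l) : br (opY s s) (opZ s s) = ⟪s, s⟫_ℂ • (opH : Module.End ℂ (LV l)) := by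
  refine LinearMap.ext fun x => ?_
  rw [br_apply, LinearMap.smul_apply, opZ_apply, opY_apply, opY_apply, opZ_apply, opH_apply]
  ext1
  · simp
    ring
  · ext1
    · simp
    · simp
      ring

section

variable (g c : Submodule ℂ (Module.End ℂ (LV l)))
    (hg : ∀ X ∈ g, ∀ Y ∈ g, X * Y - Y * X ∈ g) (hcg : c ≤ g)
    (hc : ∀ X ∈ g, ∀ Y ∈ c, X * Y - Y * X ∈ c) (hH : opH ∈ g)
    (hadj : ∀ X ∈ g, ∃ X' ∈ g, ∀ u v, hm (X' u) v = hm u (X v))
    (hadjc : ∀ X ∈ c, ∃ X' ∈ c, ∀ u v, hm (X' u) v = hm u (X v))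
    (hirr : ∀ U : Submodule ℂ (LV l), (∀ X ∈ g, ∀ v ∈ U, X v ∈ U) → U = ⊥ ∨ U = ⊤)

include hc hH in
lemma comp_mem {X : Module.End ℂ (LV l)} (hX : X ∈ c) :
    opY (vY X) (uY X) ∈ c ∧ opZ (vZ X) (uZ X) ∈ c ∧ (X (iM 1)).1 • opE ∈ c ∧
      (X (iP 1)).2.2 • opF ∈ c := by
  have h1 : dH X ∈ c := hc _ hH _ hX
  have h2 : dH (dH X) ∈ c := hc _ hH _ h1
  have h3 : dH (dH (dH X)) ∈ c := hc _ hH _ h2
  have h4 : dH (dH (dH (dH X))) ∈ c := hc _ hH _ h3
  refine ⟨?_, ?_, ?_, ?_⟩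
  · rw [← compY]
    exact c.smul_mem _ (c.sub_mem (c.sub_mem (c.add_mem h4 h3) (c.smul_mem _ h2))
      (c.smul_mem _ h1))
  · rw [← compZ]
    exact c.smul_mem _ (c.add_mem (c.sub_mem (c.sub_mem h4 h3) (c.smul_mem _ h2))
      (c.smul_mem _ h1))
  · rw [← compE]
    exact c.smul_mem _ (c.sub_mem (c.sub_mem (c.add_mem h4 (c.smul_mem _ h3)) h2)
      (c.smul_mem _ h1))
  · rw [← compF]
    exact c.smul_mem _ (c.add_mem (c.sub_mem (c.sub_mem h4 (c.smul_mem _ h3)) h2)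
      (c.smul_mem _ h1))

include hg in
lemma RY_of_RZ (hE : opE ∉ g) (hRY : RY g ≠ ⊥) {w : EW l} (hw : w ∈ RZ g) : w ∈ RY g := by
  obtain ⟨t, ht, ht0⟩ := Submodule.exists_mem_ne_zero_of_ne_bot hRY
  have htt : (⟪t, t⟫_ℂ).re ≠ 0 := by
    intro h
    have h1 := self_real t
    rw [h, Complex.ofReal_zero] at h1
    exact inner_self_ne_zero.mpr ht0 h1
  have h1 := key_Y g hg ((mem_RY g t).mp ht) ((mem_RZ g w).mp hw)
  have h2 := case_notE g hg hE ht h1
  rw [inner_sub_right, inner_sub_left, inner_smul_right, inner_smul_right, inner_smul_left,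
    inner_smul_left, map_mul, inner_conj_symm, inner_conj_symm, map_ofNat] at h2
  have h3 : ⟪t, t⟫_ℂ ≠ 0 := inner_self_ne_zero.mpr ht0
  have h4 : ⟪w, t⟫_ℂ = ⟪t, w⟫_ℂ := by
    have h5 : ⟪t, t⟫_ℂ * (3 * (⟪w, t⟫_ℂ - ⟪t, w⟫_ℂ)) = 0 := by linear_combination h2
    rcases mul_eq_zero.mp h5 with h6 | h6
    · exact absurd h6 h3
    · have h7 := (mul_eq_zero.mp h6).resolve_left three_ne_zero
      exact sub_eq_zero.mp h7
  have h5 := real_of_symm h4
  have h6 : (2 * (⟪w, t⟫_ℂ).re) • t ∈ RY g := (RY g).smul_mem _ ht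
  have h7 : (⟪t, t⟫_ℂ).re • w ∈ RY g := by
    have h8 := (RY g).sub_mem h6 h1
    have h9 : (2 * (⟪w, t⟫_ℂ).re) • t - ((2 * ⟪w, t⟫_ℂ) • t - ⟪t, t⟫_ℂ • w) =
        (⟪t, t⟫_ℂ).re • w := by
      have e1 : (2 * (⟪w, t⟫_ℂ).re) • t = (2 * ⟪w, t⟫_ℂ) • t := by
        rw [h5, Complex.ofReal_re, ← Complex.coe_smul, Complex.ofReal_mul, Complex.ofReal_ofNat]
      have e2 : (⟪t, t⟫_ℂ).re • w = ⟪t, t⟫_ℂ • w := by
        rw [← Complex.coe_smul, ← self_real]
      rw [e1, e2, sub_sub_cancel]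
    rw [h9] at h8
    exact h8
  have h8 := (RY g).smul_mem ((⟪t, t⟫_ℂ).re)⁻¹ h7
  rw [smul_smul, inv_mul_cancel₀ htt, one_smul] at h8
  exact h8

include hg hc hH hadj hirr in
lemma opH_of_RY (hl : 0 < l) (hcg : c ≤ g) {s : EW l} (hs : s ∈ RY c) (hs0 : s ≠ 0) :
    opH ∈ c := by
  have hRY := RY_ne g g hg le_rfl hH hadj hirr hl
  have hRZ := RZ_ne g g hg le_rfl hH hadj hirr hl
  have hsp := span_RY g g hg le_rfl hH hadj hirr hl
  have hZ : opZ s s ∈ g := by
    by_cases hE : opE ∈ g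
    · exact (case_E g hg hadj hE hRZ hsp s).2
    · exact RZ_of_RY g hg hE hRY hRZ (s := s) (hcg hs)
  have h1 := hc _ hZ _ ((mem_RY c s).mp hs)
  have h2 : opZ s s * opY s s - opY s s * opZ s s = (-⟪s, s⟫_ℂ) • (opH : Module.End ℂ (LV l)) := by
    have h3 := br_YZ_self s
    rw [br] at h3
    rw [← neg_sub, h3]
    exact (neg_smul _ _).symm
  rw [h2] at h1
  have h3 := c.smul_mem (-⟪s, s⟫_ℂ)⁻¹ h1
  rw [smul_smul, inv_mul_cancel₀ (neg_ne_zero.mpr (inner_self_ne_zero.mpr hs0)), one_smul] at h3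
  exact h3

include hg hc hH hadj hirr in
lemma opH_of_RZ (hl : 0 < l) (hcg : c ≤ g) {s : EW l} (hs : s ∈ RZ c) (hs0 : s ≠ 0) :
    opH ∈ c := by
  have hRY := RY_ne g g hg le_rfl hH hadj hirr hl
  have hRZ := RZ_ne g g hg le_rfl hH hadj hirr hl
  have hsp := span_RY g g hg le_rfl hH hadj hirr hl
  have hY : opY s s ∈ g := by
    by_cases hE : opE ∈ g
    · exact (case_E g hg hadj hE hRZ hsp s).1
    · exact RY_of_RZ g hg hE hRY (w := s) (hcg hs)
  have h1 := hc _ hY _ ((mem_RZ c s).mp hs)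
  have h2 : opY s s * opZ s s - opZ s s * opY s s = (⟪s, s⟫_ℂ) • (opH : Module.End ℂ (LV l)) :=
    br_YZ_self s
  rw [h2] at h1
  have h3 := c.smul_mem (⟪s, s⟫_ℂ)⁻¹ h1
  rw [smul_smul, inv_mul_cancel₀ (inner_self_ne_zero.mpr hs0), one_smul] at h3
  exact h3

lemma neg_two_I_ne {w : EW l} (hw : w ≠ 0) : Complex.I • (-w - w) ≠ 0 := by
  intro h
  have h1 : Complex.I • (-w - w) = (-2 * Complex.I) • w := by module
  rw [h1, smul_eq_zero] at h
  rcases h with h | h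
  · exact (mul_ne_zero (neg_ne_zero.mpr two_ne_zero) Complex.I_ne_zero) h
  · exact hw h

include hg hcg hc hH hadj hadjc hirr in
/-- the ideal lemma -/
theorem ideal_thm (hl : 0 < l) (hns : ∃ X ∈ c, ∀ a : ℂ, X ≠ a • (1 : Module.End ℂ (LV l))) :
    opH ∈ c := by
  by_contra hcon
  have hRYc : RY c = ⊥ := by
    by_contra h
    obtain ⟨s, hs, hs0⟩ := Submodule.exists_mem_ne_zero_of_ne_bot h
    exact hcon (opH_of_RY g c hg hc hH hadj hirr hl hcg hs hs0)
  have hRZc : RZ c = ⊥ := by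
    by_contra h
    obtain ⟨s, hs, hs0⟩ := Submodule.exists_mem_ne_zero_of_ne_bot h
    exact hcon (opH_of_RZ g c hg hc hH hadj hirr hl hcg hs hs0)
  have hE : opE ∉ c := by
    intro hE
    obtain ⟨w, hw, hw0⟩ := Submodule.exists_mem_ne_zero_of_ne_bot
      (RZ_ne g g hg le_rfl hH hadj hirr hl)
    have h1 := c.neg_mem (hc _ ((mem_RZ g w).mp hw) _ hE)
    have h2 : -(opZ w w * opE - opE * opZ w w) = opY (-w) w := by
      rw [neg_sub]
      exact br_EZ w w
    rw [h2] at h1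
    have h3 := (RY_of c hadjc h1).2
    rw [hRYc, Submodule.mem_bot] at h3
    exact neg_two_I_ne hw0 h3
  have hF : opF ∉ c := by
    intro hF
    obtain ⟨w, hw, hw0⟩ := Submodule.exists_mem_ne_zero_of_ne_bot
      (RY_ne g g hg le_rfl hH hadj hirr hl)
    have h1 := c.neg_mem (hc _ ((mem_RY g w).mp hw) _ hF)
    have h2 : -(opY w w * opF - opF * opY w w) = opZ (-w) w := by
      rw [neg_sub]
      exact br_FY w w
    rw [h2] at h1
    have h3 := (RZ_of c hadjc h1).2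
    rw [hRZc, Submodule.mem_bot] at h3
    exact neg_two_I_ne hw0 h3
  have hvY : ∀ X ∈ c, vY X = 0 := fun X hX =>
    zero_of_RY c hadjc hRYc (comp_mem g c hc hH hX).1
  have huY : ∀ X ∈ c, uY X = 0 := fun X hX =>
    zero_of_RY c hadjc hRYc (opY_swap c hadjc (comp_mem g c hc hH hX).1)
  have hvZ : ∀ X ∈ c, vZ X = 0 := fun X hX =>
    zero_of_RZ c hadjc hRZc (comp_mem g c hc hH hX).2.1
  have huZ : ∀ X ∈ c, uZ X = 0 := fun X hX =>
    zero_of_RZ c hadjc hRZc (opZ_swap c hadjc (comp_mem g c hc hH hX).2.1)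
  have h1E : ∀ X ∈ c, (X (iM 1)).1 = 0 := by
    intro X hX
    by_contra h
    have h1 := c.smul_mem ((X (iM 1)).1)⁻¹ (comp_mem g c hc hH hX).2.2.1
    rw [smul_smul, inv_mul_cancel₀ h, one_smul] at h1
    exact hE h1
  have h1F : ∀ X ∈ c, (X (iP 1)).2.2 = 0 := by
    intro X hX
    by_contra h
    have h1 := c.smul_mem ((X (iP 1)).2.2)⁻¹ (comp_mem g c hc hH hX).2.2.2
    rw [smul_smul, inv_mul_cancel₀ h, one_smul] at h1
    exact hF h1
  obtain ⟨X, hX, hX0⟩ := hns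
  -- the shape of `X`
  have hM : X (iM 1) = (0, 0, (X (iM 1)).2.2) := by
    ext1
    · exact h1E X hX
    · ext1
      · exact hvY X hX
      · rfl
  have hP : X (iP 1) = ((X (iP 1)).1, 0, 0) := by
    ext1
    · rfl
    · ext1
      · exact hvZ X hX
      · exact h1F X hX
  have hW : ∀ x, X (iW x) = (0, (X (iW x)).2.1, 0) := by
    intro x
    ext1
    · have h1 : ⟪uY X, x⟫_ℂ = (X (iW x)).1 := inner_riesz _ _
      rw [huY X hX, inner_zero_left] at h1
      exact h1.symm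
    · ext1
      · rfl
      · have h1 : ⟪uZ X, x⟫_ℂ = (X (iW x)).2.2 := inner_riesz _ _
        rw [huZ X hX, inner_zero_left] at h1
        exact h1.symm
  -- the brackets with the elements of degree one
  have hT : ∀ s ∈ RY g, (X (iW s)).2.1 = (X (iM 1)).2.2 • s := by
    intro s hs
    have h1 := hvY _ (c.neg_mem (hc _ ((mem_RY g s).mp hs) _ hX))
    have h2 : vY (-(opY s s * X - X * opY s s)) = (X (iW s)).2.1 - (X (iM 1)).2.2 • s := by
      show ((-(opY s s * X - X * opY s s)) (iM 1)).2.1 = _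
      rw [neg_sub]
      show (X (opY s s (iM 1)) - opY s s (X (iM 1))).2.1 = _
      have h3 : opY s s (iM 1) = iW s := by
        rw [opY_apply, iM_apply, iW_apply]
        ext1
        · simp
        · ext1
          · simp
          · simp
      rw [h3, opY_apply]
      rfl
    rw [h2, sub_eq_zero] at h1
    exact h1
  have hTall : ∀ x, (X (iW x)).2.1 = (X (iM 1)).2.2 • x := by
    have h0 : cs (RY g) ≤ LinearMap.ker ((pW ∘ₗ X ∘ₗ iW) -
        (X (iM 1)).2.2 • (LinearMap.id : EW l →ₗ[ℂ] EW l)) := by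
      refine Submodule.span_le.mpr ?_
      intro s hs
      show (X (iW s)).2.1 - (X (iM 1)).2.2 • s = 0
      rw [hT s hs, sub_self]
    rw [span_RY g g hg le_rfl hH hadj hirr hl] at h0
    intro x
    have h1 : (X (iW x)).2.1 - (X (iM 1)).2.2 • x = 0 := h0 (Submodule.mem_top : x ∈ ⊤)
    exact sub_eq_zero.mp h1
  have hε : (X (iP 1)).1 = (X (iM 1)).2.2 := by
    obtain ⟨s, hs, hs0⟩ := Submodule.exists_mem_ne_zero_of_ne_bot
      (RY_ne g g hg le_rfl hH hadj hirr hl)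
    have h1 := huY _ (c.neg_mem (hc _ ((mem_RY g s).mp hs) _ hX))
    have h2 : ⟪uY (-(opY s s * X - X * opY s s)), s⟫_ℂ =
        ((-(opY s s * X - X * opY s s)) (iW s)).1 := inner_riesz _ _
    rw [h1, inner_zero_left, neg_sub] at h2
    have h3 : ((X * opY s s - opY s s * X) (iW s)).1 =
        ⟪s, s⟫_ℂ * (X (iP 1)).1 - (X (iM 1)).2.2 * ⟪s, s⟫_ℂ := by
      show (X (opY s s (iW s)) - opY s s (X (iW s))).1 = _
      have h4 : opY s s (iW s) = ⟪s, s⟫_ℂ • iP 1 := by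
        rw [opY_apply, iW_apply, iP_apply]
        ext1
        · simp
        · ext1
          · simp
          · simp
      rw [h4, map_smul, opY_apply, hTall]
      show ⟪s, s⟫_ℂ * (X (iP 1)).1 - ⟪s, (X (iM 1)).2.2 • s⟫_ℂ = _
      rw [inner_smul_right]
    rw [h3] at h2
    have h4 : ⟪s, s⟫_ℂ * ((X (iP 1)).1 - (X (iM 1)).2.2) = 0 := by linear_combination -h2
    exact sub_eq_zero.mp ((mul_eq_zero.mp h4).resolve_left (inner_self_ne_zero.mpr hs0))
  refine hX0 ((X (iM 1)).2.2) ?_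
  refine LinearMap.ext fun x => ?_
  have h6 := val X x.1 x.2.1 x.2.2
  have h7 : (x.1, x.2.1, x.2.2) = x := rfl
  rw [h7] at h6
  rw [h6, hM, hP, hW, hTall, hε]
  show _ = (X (iM 1)).2.2 • x
  ext1
  · simp
    ring
  · ext1
    · simp
    · simp
      ring

end

end Pool.Agent.Ball
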